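import Pool.Agent.H30.ES.Stm

/-!
# Project ES: the energy of `k`-th powers (statement of the stub POW)
-/

set_option autoImplicit false

namespace Pool.Agent.H30.ES

open Finset
open Pool.Agent.TH212.PL (En)

/-- pairs of `k`-th powers: `m_i ^ k - m_j ^ k = D ≠ 0`, `|D| ≤ 2 N`, has at most `τ(|D|)` solutions (`m_i - m_j` divides `D`
and determines `m_j`) -/
def S_POW : Prop := ∀ (k : ℕ) (ε : ℝ), 2 ≤ k → 0 < ε → ∃ N₀ : ℕ, ∀ N : ℕ, N₀ ≤ N → ∀ (ι : Type) [Fintype ι] (m : ι → ℕ),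
  Function.Injective m → (∀ i j, |(m i : ℤ) ^ k - (m j : ℤ) ^ k| ≤ 2 * (N : ℤ)) → ∀ c : ℤ,
    (En 2 (fun i => c + (m i : ℤ) ^ k) : ℝ) ≤ (N : ℝ) ^ ε * (Fintype.card ι : ℝ) ^ 2

end Pool.Agent.H30.ES
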