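import Pool.Agent.H30.ES.Main
import Pool.Agent.H30.ES.Stm2
import Pool.Agent.H30.L.W5h23.SF.Conv

/-! Project ES: strictly convex sequences and `k`-th powers. -/

set_option autoImplicit false

namespace Pool.Agent.H30.ES

open Finset Polynomial
open Pool.Agent.TH212.PS
open Pool.Agent.TH212.DV
open Pool.Agent.TH212.PL (En)

/-- the differences of the sequence increase, or they decrease -/
def CoC (n : ℕ) (a : ℕ → ℤ) : Prop :=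
  (∀ i, i + 2 < n → a (i + 1) - a i < a (i + 2) - a (i + 1)) ∨ (∀ i, i + 2 < n → a (i + 2) - a (i + 1) < a (i + 1) - a i)

theorem En_eq_en (n p : ℕ) (a : ℕ → ℤ) : En p (fun i : Fin n => a i) = Pool.Agent.W5h23.Conv.en n p a := by
  unfold En Pool.Agent.W5h23.Conv.en Pool.Agent.W5h23.Conv.pairs
  rw [Nat.card_eq_fintype_card, Fintype.card_subtype, univ_product_univ]

theorem en_neg (n p : ℕ) (a : ℕ → ℤ) : Pool.Agent.W5h23.Conv.en n p (fun i => -a i) = Pool.Agent.W5h23.Conv.en n p a := by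
  unfold Pool.Agent.W5h23.Conv.en
  congr 1
  ext q
  rw [Pool.Agent.W5h23.Conv.mem_pairs, Pool.Agent.W5h23.Conv.mem_pairs]
  simp only [sum_neg_distrib, neg_inj]

theorem En_conv (n p : ℕ) (hn1 : 1 ≤ n) (a : ℕ → ℤ) (ha : CoC n a) :
    (En p (fun i : Fin n => a i) : ℝ) ≤ 2304 * (n : ℝ) ^ (2 * (p : ℝ) - 2 + 2 * (1 / 2) ^ p) := by
  rw [En_eq_en]
  rcases ha with ha | ha
  · exact Pool.Agent.W5h23.Conv.en_convex n hn1 a ha p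
  · rw [← en_neg]
    exact Pool.Agent.W5h23.Conv.en_convex n hn1 (fun i => -a i) (fun i hi => by
      have := ha i hi
      show -a (i + 1) - -a i < -a (i + 2) - -a (i + 1)
      linarith) p

theorem En_comp_le {ι κ : Type} [Fintype ι] [Fintype κ] (p : ℕ) (f : ι → κ) (hf : Function.Injective f) (v : κ → ℤ) :
    En p (fun i => v (f i)) ≤ En p v := by
  unfold En
  apply Nat.card_le_card_of_injective (fun q : {q : (Fin p → ι) × (Fin p → ι) // ∑ j, v (f (q.1 j)) = ∑ j, v (f (q.2 j))} =>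
    (⟨(fun j => f (q.1.1 j), fun j => f (q.1.2 j)), q.2⟩ : {q : (Fin p → κ) × (Fin p → κ) // ∑ j, v (q.1 j) = ∑ j, v (q.2 j)}))
  rintro ⟨⟨a, b⟩, hab⟩ ⟨⟨a', b'⟩, hab'⟩ h
  simp only [Subtype.mk.injEq, Prod.mk.injEq] at h ⊢
  obtain ⟨h1, h2⟩ := h
  exact ⟨funext fun j => hf (congrFun h1 j), funext fun j => hf (congrFun h2 j)⟩

open Classical in
theorem conv_dev (t : ℕ) (P : ℕ → ℝ[X]) (ht : 1 ≤ t) (hP : HW t P) (ε : ℝ) (hε : 0 < ε) : ∃ θ : ℝ, 0 < θ ∧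
    ∀ η : ℝ, 0 < η → η ≤ θ → ∃ N₀ : ℕ, ∀ N : ℕ, N₀ ≤ N → ∀ n : ℕ, (N : ℝ) ^ (1 / 2 - 1 / ((t : ℝ) + 2) + ε) ≤ n →
    ∀ a : ℕ → ℤ, CoC n a → (∀ i < n, |a i| ≤ (N : ℤ)) →
      (((range n).filter (fun i => a i ≠ 0 ∧ ¬ GoodP t N P θ η (a i))).card : ℝ) ≤ (N : ℝ) ^ (-θ) * n := by
  have ht0 : (0 : ℝ) ≤ t := Nat.cast_nonneg t
  obtain ⟨β, hβ⟩ : ∃ β : ℝ, β = 1 / 2 - 1 / ((t : ℝ) + 2) + ε := ⟨_, rfl⟩
  have hs : 0 ≤ 1 / 2 - 1 / ((t : ℝ) + 2) := by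
    rw [sub_nonneg]
    exact one_div_le_one_div_of_le (by norm_num) (by linarith)
  have hβ0 : 0 < β := by rw [hβ]; linarith
  obtain ⟨p, hp⟩ := exists_pow_lt_of_lt_one (by positivity : (0 : ℝ) < min (ε / (4 * β)) (1 / 2)) (by norm_num : (1 / 2 : ℝ) < 1)
  obtain ⟨δ, hδ⟩ : ∃ δ : ℝ, δ = (1 / 2) ^ p := ⟨_, rfl⟩
  rw [← hδ] at hp
  have hδ0 : 0 < δ := by rw [hδ]; positivity
  have hδ1 : δ < 1 / 2 := hp.trans_le (min_le_right _ _)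
  have hδ2 : β * δ ≤ ε / 4 := by
    have h1 : δ ≤ ε / (4 * β) := hp.le.trans (min_le_left _ _)
    rw [le_div_iff₀ (by positivity)] at h1
    linarith
  have hp1 : 1 ≤ p := by
    rcases Nat.eq_zero_or_pos p with h | h
    · rw [h, pow_zero] at hδ
      rw [hδ] at hδ1
      norm_num at hδ1
    · exact h
  have hpr : (1 : ℝ) ≤ p := by exact_mod_cast hp1
  obtain ⟨θ₁, hθ₁, _, h1⟩ := main t P ht hP p (ε / 2) hp1 (by positivity)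
  obtain ⟨θ, hθ⟩ : ∃ θ : ℝ, θ = min θ₁ (ε / (4 * p)) := ⟨_, rfl⟩
  have hθ0 : 0 < θ := by rw [hθ]; positivity
  have hθa : θ ≤ θ₁ := by rw [hθ]; exact min_le_left _ _
  have hθb : θ ≤ ε / (4 * p) := by rw [hθ]; exact min_le_right _ _
  refine ⟨θ, hθ0, fun η hη hηθ => ?_⟩
  obtain ⟨n1, h2⟩ := h1 η hη (hηθ.trans hθa)
  obtain ⟨n2, h3⟩ := ev_pow 0 2304 (ε / 2) (by positivity)
  refine ⟨n1 + n2 + 1, fun N hN n hn a ha hb => ?_⟩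
  have a3 := h3 N (by omega)
  rw [pow_zero, mul_one] at a3
  have hN0 : (0 : ℝ) < N := by exact_mod_cast (by omega : 0 < N)
  have hN1 : (1 : ℝ) ≤ N := by exact_mod_cast (by omega : 1 ≤ N)
  rw [← hβ] at hn
  have hpos : 0 < (N : ℝ) ^ β := Real.rpow_pos_of_pos hN0 _
  have hn0 : (0 : ℝ) < n := hpos.trans_le hn
  have hn1 : 1 ≤ n := by exact_mod_cast hn0
  obtain ⟨E, hE⟩ : ∃ E : Finset ℕ, E = (range n).filter (fun i => a i ≠ 0 ∧ ¬ GoodP t N P θ η (a i)) := ⟨_, rfl⟩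
  rw [← hE]
  have hmem : ∀ j ∈ E, j < n ∧ a j ≠ 0 ∧ ¬ GoodP t N P θ η (a j) := by
    intro j hj
    rw [hE, mem_filter, mem_range] at hj
    exact hj
  have key := h2 N (by omega) E (fun i => a i) (fun i => ⟨(hmem i i.2).2.1, hb _ (hmem i i.2).1⟩)
    (fun i hg => (hmem i i.2).2.2 (GoodP_mono t N P θ₁ θ η _ (by omega) hθa hg))
  rw [Fintype.card_coe] at key
  have hEn : (En p (fun i : E => a i) : ℝ) ≤ En p (fun i : Fin n => a i) := by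
    have := En_comp_le p (fun i : E => (⟨(i : ℕ), (hmem i i.2).1⟩ : Fin n)) (fun i j h => by
      have h' := congrArg Fin.val h
      exact Subtype.ext h') (fun i : Fin n => a i)
    exact_mod_cast this
  have hEc := En_conv n p hn1 a ha
  rw [← hδ] at hEc
  have hs2 : 1 - 2 / ((t : ℝ) + 2) + ε / 2 = 2 * β - 3 * ε / 2 := by rw [hβ]; ring
  have e1 : (n : ℝ) ^ (2 * (p : ℝ) - 2 + 2 * δ) = (n : ℝ) ^ (2 * p) * (n : ℝ) ^ (-2 + 2 * δ) := by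
    rw [← Real.rpow_natCast, ← Real.rpow_add hn0]
    congr 1
    push_cast
    ring
  have e2 : (n : ℝ) ^ (-2 + 2 * δ) ≤ (N : ℝ) ^ (-(2 * β) + ε / 2) := by
    calc (n : ℝ) ^ (-2 + 2 * δ) ≤ ((N : ℝ) ^ β) ^ (-2 + 2 * δ) := Real.rpow_le_rpow_of_nonpos hpos hn (by linarith)
      _ = (N : ℝ) ^ (β * (-2 + 2 * δ)) := by rw [← Real.rpow_mul hN0.le]
      _ ≤ _ := by
          apply Real.rpow_le_rpow_of_exponent_le hN1
          nlinarith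
  have e3 : (E.card : ℝ) ^ (2 * p) ≤ (N : ℝ) ^ (-(ε / 2)) * (n : ℝ) ^ (2 * p) := by
    calc (E.card : ℝ) ^ (2 * p) ≤ (N : ℝ) ^ (2 * β - 3 * ε / 2) * (2304 * ((n : ℝ) ^ (2 * p) * (N : ℝ) ^ (-(2 * β) + ε / 2))) := by
          rw [hs2] at key
          refine key.trans ?_
          apply mul_le_mul_of_nonneg_left _ (by positivity)
          refine hEn.trans (hEc.trans ?_)
          rw [e1]
          gcongr
      _ = 2304 * ((N : ℝ) ^ (2 * β - 3 * ε / 2) * (N : ℝ) ^ (-(2 * β) + ε / 2)) * (n : ℝ) ^ (2 * p) := by ring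
      _ = 2304 * (N : ℝ) ^ (-ε) * (n : ℝ) ^ (2 * p) := by
          rw [← Real.rpow_add hN0]
          congr 3
          ring
      _ ≤ (N : ℝ) ^ (ε / 2) * (N : ℝ) ^ (-ε) * (n : ℝ) ^ (2 * p) := by gcongr
      _ = _ := by
          rw [← Real.rpow_add hN0]
          congr 2
          ring
  have e4 : (N : ℝ) ^ (-(ε / 2)) * (n : ℝ) ^ (2 * p) = ((N : ℝ) ^ (-(ε / (4 * p))) * n) ^ (2 * p) := by
    rw [mul_pow, ← Real.rpow_natCast ((N : ℝ) ^ (-(ε / (4 * p)))), ← Real.rpow_mul hN0.le]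
    congr 2
    push_cast
    field_simp
    ring
  rw [e4] at e3
  have e5 : (E.card : ℝ) ≤ (N : ℝ) ^ (-(ε / (4 * p))) * n :=
    le_of_pow_le_pow_left₀ (by omega) (by positivity) e3
  refine e5.trans ?_
  apply mul_le_mul_of_nonneg_right _ hn0.le
  exact Real.rpow_le_rpow_of_exponent_le hN1 (by linarith)

open Classical in
theorem pow_dev (hPOW : S_POW) (t : ℕ) (P : ℕ → ℝ[X]) (ht : 1 ≤ t) (hP : HW t P) (k : ℕ) (hk : 2 ≤ k) (ε : ℝ) (hε : 0 < ε) :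
    ∃ θ : ℝ, 0 < θ ∧ ∀ η : ℝ, 0 < η → η ≤ θ → ∃ N₀ : ℕ, ∀ N : ℕ, N₀ ≤ N → ∀ (c : ℤ) (M : ℕ),
      (((range M).filter (fun m : ℕ => c + (m : ℤ) ^ k ≠ 0 ∧ |c + (m : ℤ) ^ k| ≤ (N : ℤ) ∧
        ¬ GoodP t N P θ η (c + (m : ℤ) ^ k))).card : ℝ) ≤ (N : ℝ) ^ (1 / 2 - 1 / ((t : ℝ) + 2) + ε) := by
  obtain ⟨θ, hθ, _, h1⟩ := main t P ht hP 2 ε (by norm_num) hε
  refine ⟨θ, hθ, fun η hη hηθ => ?_⟩
  obtain ⟨n1, h2⟩ := h1 η hη hηθ
  obtain ⟨n2, h3⟩ := hPOW k ε hk hε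
  refine ⟨n1 + n2 + 1, fun N hN c M => ?_⟩
  have hN0 : (0 : ℝ) < N := by exact_mod_cast (by omega : 0 < N)
  obtain ⟨E, hE⟩ : ∃ E : Finset ℕ, E = (range M).filter (fun m : ℕ => c + (m : ℤ) ^ k ≠ 0 ∧ |c + (m : ℤ) ^ k| ≤ (N : ℤ) ∧
        ¬ GoodP t N P θ η (c + (m : ℤ) ^ k)) := ⟨_, rfl⟩
  rw [← hE]
  have hmem : ∀ m ∈ E, c + (m : ℤ) ^ k ≠ 0 ∧ |c + (m : ℤ) ^ k| ≤ (N : ℤ) ∧ ¬ GoodP t N P θ η (c + (m : ℤ) ^ k) := by
    intro m hm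
    rw [hE, mem_filter] at hm
    exact hm.2
  have key := h2 N (by omega) E (fun m => c + ((m : ℕ) : ℤ) ^ k) (fun i => ⟨(hmem i i.2).1, (hmem i i.2).2.1⟩)
    (fun i hg => (hmem i i.2).2.2 hg)
  have key2 := h3 N (by omega) E (fun m => (m : ℕ)) (fun a b h => Subtype.ext h) (fun i j => by
    have g1 := abs_le.1 (hmem i i.2).2.1
    have g2 := abs_le.1 (hmem j j.2).2.1
    rw [abs_le]
    constructor <;> linarith [g1.1, g1.2, g2.1, g2.2]) c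
  rw [Fintype.card_coe] at key key2
  rcases Nat.eq_zero_or_pos E.card with h0 | h0
  · rw [h0]
    push_cast
    exact Real.rpow_nonneg (Nat.cast_nonneg _) _
  have h0' : (0 : ℝ) < E.card := by exact_mod_cast h0
  have e1 : (E.card : ℝ) ^ 2 * (E.card : ℝ) ^ 2 ≤ ((N : ℝ) ^ (1 - 2 / ((t : ℝ) + 2) + ε) * (N : ℝ) ^ ε) * (E.card : ℝ) ^ 2 := by
    calc (E.card : ℝ) ^ 2 * (E.card : ℝ) ^ 2 = (E.card : ℝ) ^ (2 * 2) := by ring
      _ ≤ _ := key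
      _ ≤ (N : ℝ) ^ (1 - 2 / ((t : ℝ) + 2) + ε) * ((N : ℝ) ^ ε * (E.card : ℝ) ^ 2) :=
          mul_le_mul_of_nonneg_left key2 (Real.rpow_nonneg (Nat.cast_nonneg _) _)
      _ = _ := by ring
  have e2 := le_of_mul_le_mul_right e1 (by positivity : (0 : ℝ) < (E.card : ℝ) ^ 2)
  have e3 : (N : ℝ) ^ (1 - 2 / ((t : ℝ) + 2) + ε) * (N : ℝ) ^ ε = ((N : ℝ) ^ (1 / 2 - 1 / ((t : ℝ) + 2) + ε)) ^ 2 := by
    rw [← Real.rpow_add hN0, ← Real.rpow_natCast ((N : ℝ) ^ (1 / 2 - 1 / ((t : ℝ) + 2) + ε)), ← Real.rpow_mul hN0.le]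
    congr 1
    push_cast
    ring
  rw [e3] at e2
  exact le_of_pow_le_pow_left₀ (by norm_num) (Real.rpow_nonneg (Nat.cast_nonneg _) _) e2

end Pool.Agent.H30.ES
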