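import Pool.Agent.H30.ES.Stm

set_option autoImplicit false

/-! ES-DEC: decomposition of the correlation (after `decomp`, PS/P5.lean). -/

namespace Pool.Agent.H30.ES.DEC

open Finset Polynomial
open Pool.Agent.H807R2.Dav
open Pool.Agent.TH212.DV
open Pool.Agent.TH212.PS
open Pool.Agent.TH212.PL (En)

theorem main (hc : S_CORR) : S_DEC := by
  intro t Y D z x N H h K hK hz hx hH hh hYD hd hw
  have hhb := abs_le.1 hh
  have hbd : ∀ n : ℕ, n ≤ x → (n : ℤ) + h ≤ H := by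
    intro n hn
    rw [hH]
    push_cast
    have : (n : ℤ) ≤ N := by exact_mod_cast hn.trans hx
    linarith [hhb.2]
  have hxH : x ≤ H := by omega
  have hM0 : ∀ m : ℕ, m ≤ H → |MY (WE Y t) Y D z m| ≤ K := by
    intro m hm
    rcases Nat.eq_zero_or_pos m with h0 | h0
    · rw [h0, MY_zero, abs_zero]; exact hK
    · exact (hd m h0 hm).2.2
  have hDF : ∀ m : ℕ, 1 ≤ m → m ≤ H → |(dk (t + 2) m : ℝ) - FY (WE Y t) Y D m| ≤ K := by
    intro m h1 h2
    obtain ⟨g1, g2, _⟩ := hd m h1 h2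
    have g3 : 0 ≤ FY (WE Y t) Y D m := FY_nonneg _ (WE_nonneg Y t) _ _ _
    have g4 : (0 : ℝ) ≤ dk (t + 2) m := Nat.cast_nonneg _
    rw [abs_le]
    constructor <;> linarith
  have hDF0 : ∀ m : ℕ, m ≤ H → Y ^ (t + 2) < m → (dk (t + 2) m : ℝ) - FY (WE Y t) Y D m = 0 := by
    intro m h1 h2
    have g1 := dk_FY Y (t + 2) D m h2 (fun a ha _ => hYD a m h1 ha)
    have g2 : (fun a => (EE Y (t + 2) a : ℝ)) = WE Y t := rfl
    rw [g2] at g1
    rw [g1, sub_self]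
  -- the five parts
  have e : Dr (t + 2) x h - Mn (WE Y t) Y D z x h =
      ∑ n ∈ Icc 1 x, (dk (t + 2) n : ℝ) * ((fun m => (dk (t + 2) m : ℝ) - FY (WE Y t) Y D m) ((n : ℤ) + h).toNat) +
      ∑ n ∈ Icc 1 x, (dk (t + 2) n : ℝ) * ((fun m => FY (WE Y t) Y D m - MY (WE Y t) Y D z m) ((n : ℤ) + h).toNat) +
      ∑ n ∈ Icc 1 x, ((dk (t + 2) n : ℝ) - FY (WE Y t) Y D n) * MY (WE Y t) Y D z ((n : ℤ) + h).toNat +
      ∑ n ∈ Icc 1 x, (FY (WE Y t) Y D n - MY (WE Y t) Y D z n) * MY (WE Y t) Y D z ((n : ℤ) + h).toNat +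
      (∑ n ∈ Icc 1 x, MY (WE Y t) Y D z n * MY (WE Y t) Y D z ((n : ℤ) + h).toNat - Mn (WE Y t) Y D z x h) := by
    unfold Dr
    rw [← sum_add_distrib, ← sum_add_distrib, ← sum_add_distrib, ← add_sub_assoc, ← sum_add_distrib]
    congr 1
    apply sum_congr rfl
    intro n _
    ring
  have a1 : |∑ n ∈ Icc 1 x, (dk (t + 2) n : ℝ) * ((fun m => (dk (t + 2) m : ℝ) - FY (WE Y t) Y D m) ((n : ℤ) + h).toNat)| ≤
      (Y : ℝ) ^ (t + 2) * K ^ 2 := by
    rw [← reindex' x H h hbd (fun m => (dk (t + 2) m : ℝ) - FY (WE Y t) Y D m) (fun n => (dk (t + 2) n : ℝ)) (by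
      show (dk (t + 2) 0 : ℝ) - FY (WE Y t) Y D 0 = 0
      rw [Pool.Agent.TH212.PS.dk_zero, FY_zero]; simp)]
    have := small_sum (Y ^ (t + 2)) H (fun m => ((dk (t + 2) m : ℝ) - FY (WE Y t) Y D m) *
      (if 1 ≤ (m : ℤ) + -h ∧ (m : ℤ) + -h ≤ x then (dk (t + 2) ((m : ℤ) + -h).toNat : ℝ) else 0)) (K ^ 2) (by positivity) (by
        intro m hm
        rw [mem_Icc] at hm
        show |((dk (t + 2) m : ℝ) - FY (WE Y t) Y D m) *
          (if 1 ≤ (m : ℤ) + -h ∧ (m : ℤ) + -h ≤ x then (dk (t + 2) ((m : ℤ) + -h).toNat : ℝ) else 0)| ≤ K ^ 2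
        rw [abs_mul, pow_two]
        apply mul_le_mul (hDF m hm.1 hm.2) _ (abs_nonneg _) hK
        split_ifs with hcc
        · rw [abs_of_nonneg (Nat.cast_nonneg _)]
          exact (hd _ (by omega) (by omega)).1
        · rw [abs_zero]; exact hK) (by
        intro m hm hS
        rw [mem_Icc] at hm
        show ((dk (t + 2) m : ℝ) - FY (WE Y t) Y D m) * _ = 0
        rw [hDF0 m hm.2 hS, zero_mul])
    push_cast at this
    exact this
  have a2 : ∑ n ∈ Icc 1 x, (dk (t + 2) n : ℝ) * ((fun m => FY (WE Y t) Y D m - MY (WE Y t) Y D z m) ((n : ℤ) + h).toNat) =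
      ∑ a ∈ Icc 1 x, (dk (t + 2) a : ℝ) * (if 1 ≤ (a : ℤ) + h ∧ (a : ℤ) + h ≤ H then
        (fun n => FY (WE Y t) Y D n - MY (WE Y t) Y D z n) ((a : ℤ) + h).toNat else 0) := by
    apply sum_congr rfl
    intro n hn
    rw [mem_Icc] at hn
    congr 1
    have := hbd n hn.2
    split_ifs with hcc
    · rfl
    · have h0 : ((n : ℤ) + h).toNat = 0 := by omega
      show FY (WE Y t) Y D ((n : ℤ) + h).toNat - MY (WE Y t) Y D z ((n : ℤ) + h).toNat = 0
      rw [h0, FY_zero, MY_zero, sub_zero]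
  have a3 : |∑ n ∈ Icc 1 x, ((dk (t + 2) n : ℝ) - FY (WE Y t) Y D n) * MY (WE Y t) Y D z ((n : ℤ) + h).toNat| ≤
      (Y : ℝ) ^ (t + 2) * K ^ 2 := by
    have := small_sum (Y ^ (t + 2)) x (fun n => ((dk (t + 2) n : ℝ) - FY (WE Y t) Y D n) * MY (WE Y t) Y D z ((n : ℤ) + h).toNat)
      (K ^ 2) (by positivity) (by
        intro n hn
        rw [mem_Icc] at hn
        show |((dk (t + 2) n : ℝ) - FY (WE Y t) Y D n) * MY (WE Y t) Y D z ((n : ℤ) + h).toNat| ≤ K ^ 2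
        rw [abs_mul, pow_two]
        have := hbd n hn.2
        exact mul_le_mul (hDF n hn.1 (by omega)) (hM0 _ (by omega)) (abs_nonneg _) hK) (by
        intro n hn hS
        rw [mem_Icc] at hn
        show ((dk (t + 2) n : ℝ) - FY (WE Y t) Y D n) * _ = 0
        rw [hDF0 n (by omega) hS, zero_mul])
    push_cast at this
    exact this
  have a4 : ∑ n ∈ Icc 1 x, (FY (WE Y t) Y D n - MY (WE Y t) Y D z n) * MY (WE Y t) Y D z ((n : ℤ) + h).toNat =
      ∑ a ∈ Icc 1 H, MY (WE Y t) Y D z a * (if 1 ≤ (a : ℤ) + -h ∧ (a : ℤ) + -h ≤ x then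
        (fun n => FY (WE Y t) Y D n - MY (WE Y t) Y D z n) ((a : ℤ) + -h).toNat else 0) :=
    (reindex' x H h hbd (fun m => MY (WE Y t) Y D z m) (fun n => FY (WE Y t) Y D n - MY (WE Y t) Y D z n) (MY_zero _ _ _ _)).symm
  have a5 : |∑ n ∈ Icc 1 x, MY (WE Y t) Y D z n * MY (WE Y t) Y D z ((n : ℤ) + h).toNat - Mn (WE Y t) Y D z x h| ≤
      1000 * (z : ℝ) ^ 3 * (1 + Real.log z) ^ 2 * K ^ 2 := hc (WE Y t) (WE_nonneg Y t) Y D z x hz h K hK hw
  rw [e, a2, a4]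
  refine (abs_add_le _ _).trans ?_
  refine (add_le_add (abs_add_le _ _) le_rfl).trans ?_
  refine (add_le_add (add_le_add (abs_add_le _ _) le_rfl) le_rfl).trans ?_
  refine (add_le_add (add_le_add (add_le_add (abs_add_le _ _) le_rfl) le_rfl) le_rfl).trans ?_
  linarith

end Pool.Agent.H30.ES.DEC
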