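import Pool.Agent.H30.ES.Stm

/-!
Stub FIN (helper69): the final form.
-/

set_option autoImplicit false

namespace Pool.Agent.H30.ES.FIN

open Finset Polynomial
open Pool.Agent.H807R2.Dav
open Pool.Agent.TH212.DV
open Pool.Agent.TH212.PS
open Pool.Agent.TH212.PL (En)

theorem main : S_PAR → S_MAINY → S_TAIL → S_TOP → S_FIN := by
  intro hPAR hMAINY hTAIL hTOP t P ht hP p ε hp hε
  obtain ⟨δ, hδ⟩ : ∃ δ : ℝ, δ = min (ε / 2) (1 / 4) := ⟨_, rfl⟩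
  have hδ0 : 0 < δ := by rw [hδ]; positivity
  have hδ1 : δ ≤ ε / 2 := by rw [hδ]; exact min_le_left _ _
  have hδ2 : δ ≤ 1 / 4 := by rw [hδ]; exact min_le_right _ _
  have htr : (1 : ℝ) ≤ t := by exact_mod_cast ht
  have ht2 : (0 : ℝ) < (t : ℝ) + 2 := by linarith
  obtain ⟨κ, hκ⟩ : ∃ κ : ℝ, κ = (1 - δ) / ((t : ℝ) + 2) := ⟨_, rfl⟩
  have hκ0 : 0 < κ := by
    rw [hκ]
    exact div_pos (by linarith) ht2
  have hκt : ((t : ℝ) + 2) * κ = 1 - δ := by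
    rw [hκ]
    field_simp
  have hκ3 : 3 * κ ≤ 1 - δ := by
    rw [← hκt]
    exact mul_le_mul_of_nonneg_right (by linarith) hκ0.le
  have hκ2 : κ ≤ 1 / 2 := by linarith
  obtain ⟨θ1, hθ1, n1, h1⟩ := hMAINY t p κ δ (ε / 2) hp hκ0 hδ0 hκ3 hκt.le (by positivity)
  obtain ⟨κ₀, hκ₀, hto⟩ := hTOP t P hP κ δ hκ0 hκ2 hδ0 hκt.le (by rw [hκt]; linarith)
  obtain ⟨κ', hκ'⟩ : ∃ κ' : ℝ, κ' = min κ₀ κ := ⟨_, rfl⟩
  have hκ'0 : 0 < κ' := by rw [hκ']; exact lt_min hκ₀ hκ0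
  have hκ'1 : κ' ≤ κ₀ := by rw [hκ']; exact min_le_left _ _
  have hκ'2 : κ' ≤ κ := by rw [hκ']; exact min_le_right _ _
  obtain ⟨θ2, hθ2, n2, h2⟩ := hto κ' hκ'0 hκ'1 hκ'2
  obtain ⟨n3, h3⟩ := hTAIL t κ κ' hκ'0 hκ'2 hκ2
  obtain ⟨n4, h4⟩ := complete t P hP κ' hκ'0 (by linarith)
  obtain ⟨n5, h5⟩ := hPAR κ' hκ'0 (by linarith)
  obtain ⟨η₀, hη₀⟩ : ∃ η : ℝ, η = min θ1 (min θ2 (min (κ' / 8) 1)) := ⟨_, rfl⟩
  have hη0 : 0 < η₀ := by rw [hη₀]; positivity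
  have hη1 : η₀ ≤ θ1 := by rw [hη₀]; exact min_le_left _ _
  have hη2 : η₀ ≤ θ2 := by rw [hη₀]; exact (min_le_right _ _).trans (min_le_left _ _)
  have hη3 : η₀ ≤ κ' / 8 := by
    rw [hη₀]; exact (min_le_right _ _).trans ((min_le_right _ _).trans (min_le_left _ _))
  have hη4 : η₀ ≤ 1 := by
    rw [hη₀]; exact (min_le_right _ _).trans ((min_le_right _ _).trans (min_le_right _ _))
  obtain ⟨n6, h6⟩ := ev_pow 0 4 (η₀ / 2) (by positivity)
  refine ⟨η₀ / 2, by positivity, by linarith, fun η hη hηθ => ?_⟩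
  obtain ⟨n7, h7⟩ := small_shift t P hP η hη (by linarith)
  obtain ⟨n8, h8⟩ := ev_pow 0 2 (η / 8) (by positivity)
  refine ⟨n1 + n2 + n3 + n4 + n5 + n6 + n7 + n8 + 2, fun N hN ι _ v hv hbad => ?_⟩
  have a6 := h6 N (by omega)
  have a8 := h8 N (by omega)
  rw [pow_zero, mul_one] at a6 a8
  have hN0 : (0 : ℝ) < N := by exact_mod_cast (by omega : 0 < N)
  have hN1 : (1 : ℝ) ≤ N := by exact_mod_cast (by omega : 1 ≤ N)
  have key : ∀ i, ∃ x : ℕ, x ≤ N ∧ (N : ℝ) ^ (1 - θ1) < |Dr (t + 2) x (v i) - Mk t κ N (zk κ N) x (v i)| := by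
    intro i
    by_contra hc
    push Not at hc
    apply hbad i
    intro x hx
    have b1 := hc x hx
    have b2 := h2 N (by omega) x hx (v i) (hv i).2
    have b3 := h3 N (by omega) x hx (v i) (hv i).1 (hv i).2
    have b4 := h4 N (by omega) (zk κ' N) (h5 N (by omega)).2.2.2.2.2.1 x hx (v i) (hv i).1 (hv i).2
    have c1 : (N : ℝ) ^ (1 - θ1) ≤ (N : ℝ) ^ (1 - η₀) := Real.rpow_le_rpow_of_exponent_le hN1 (by linarith)
    have c2 : (N : ℝ) ^ (1 - θ2) ≤ (N : ℝ) ^ (1 - η₀) := Real.rpow_le_rpow_of_exponent_le hN1 (by linarith)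
    have c3 : (N : ℝ) ^ (1 - κ' / 8) ≤ (N : ℝ) ^ (1 - η₀) := Real.rpow_le_rpow_of_exponent_le hN1 (by linarith)
    have d1 : |Dr (t + 2) x (v i) - Mf P x (v i)| ≤ (N : ℝ) ^ (1 - η₀ / 2) := by
      have e1 : Dr (t + 2) x (v i) - Mf P x (v i) =
          (Dr (t + 2) x (v i) - Mk t κ N (zk κ N) x (v i)) +
          (Mk t κ N (zk κ N) x (v i) - Mk t κ N (zk κ' N) x (v i)) +
          (Mk t κ N (zk κ' N) x (v i) - Mp P (zk κ' N) x (v i)) +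
          (Mp P (zk κ' N) x (v i) - Mf P x (v i)) := by ring
      rw [e1]
      have f1 := abs_add_le ((Dr (t + 2) x (v i) - Mk t κ N (zk κ N) x (v i)) +
          (Mk t κ N (zk κ N) x (v i) - Mk t κ N (zk κ' N) x (v i)) +
          (Mk t κ N (zk κ' N) x (v i) - Mp P (zk κ' N) x (v i)))
          (Mp P (zk κ' N) x (v i) - Mf P x (v i))
      have f2 := abs_add_le ((Dr (t + 2) x (v i) - Mk t κ N (zk κ N) x (v i)) +
          (Mk t κ N (zk κ N) x (v i) - Mk t κ N (zk κ' N) x (v i)))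
          (Mk t κ N (zk κ' N) x (v i) - Mp P (zk κ' N) x (v i))
      have f3 := abs_add_le (Dr (t + 2) x (v i) - Mk t κ N (zk κ N) x (v i))
          (Mk t κ N (zk κ N) x (v i) - Mk t κ N (zk κ' N) x (v i))
      have g1 : 4 * (N : ℝ) ^ (1 - η₀) ≤ (N : ℝ) ^ (1 - η₀ / 2) := by
        calc 4 * (N : ℝ) ^ (1 - η₀) ≤ (N : ℝ) ^ (η₀ / 2) * (N : ℝ) ^ (1 - η₀) :=
              mul_le_mul_of_nonneg_right a6 (by positivity)
          _ = _ := by rw [← Real.rpow_add hN0]; congr 1; ring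
      linarith
    refine ⟨d1, fun hh => ?_⟩
    have b7 := h7 N (by omega) (v i) (hv i).1 hh x hx
    have c7 : (N : ℝ) ^ (1 - η₀ / 2) ≤ (N : ℝ) ^ (1 - η / 4) :=
      Real.rpow_le_rpow_of_exponent_le hN1 (by linarith)
    calc |Dr (t + 2) x (v i) - x * (Th t P (v i)).eval (Real.log x)| =
          |(Dr (t + 2) x (v i) - Mf P x (v i)) + (Mf P x (v i) - x * (Th t P (v i)).eval (Real.log x))| := by
            congr 1; ring
      _ ≤ (N : ℝ) ^ (1 - η / 4) + (N : ℝ) ^ (1 - η / 4) := (abs_add_le _ _).trans (add_le_add (d1.trans c7) b7)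
      _ = 2 * (N : ℝ) ^ (1 - η / 4) := by ring
      _ ≤ (N : ℝ) ^ (η / 8) * (N : ℝ) ^ (1 - η / 4) := mul_le_mul_of_nonneg_right a8 (by positivity)
      _ = _ := by rw [← Real.rpow_add hN0]; congr 1; ring
  refine (h1 N (by omega) ι v (fun i => (hv i).2) key).trans ?_
  apply mul_le_mul_of_nonneg_right _ (Nat.cast_nonneg _)
  apply Real.rpow_le_rpow_of_exponent_le hN1
  have k1 : 2 / ((t : ℝ) + 2) = 2 * κ + 2 * δ / ((t : ℝ) + 2) := by
    rw [hκ]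
    field_simp
    ring
  have k2 : 2 * δ / ((t : ℝ) + 2) ≤ δ := by
    rw [div_le_iff₀ ht2]
    nlinarith
  linarith

end Pool.Agent.H30.ES.FIN
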