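import Pool.Agent.H30.ES.Stm

/-!
# Project ES, stub KEY: a `2p`-th moment inequality for correlations against a family of shifts
-/

set_option autoImplicit false

namespace Pool.Agent.H30.ES.KEY

open Finset
open Pool.Agent.H807R2.Dav
open Pool.Agent.H373R2.T7 (orth sq_expand majorant_pow parseval_Icc triple fz energy)
open Pool.Agent.TH212.PL (En enum sum_enum energy_enum moment_energy)

/-- the Fourier identity -/
lemma hid (A H x M : ℕ) (hM1 : 1 ≤ M) (f : ℕ → ℂ) (G c : ℕ → ℂ) (F : ℕ → ℤ)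
    (hM : ∀ a ∈ Icc 1 A, ∀ m ∈ Icc 1 x, ∀ n ∈ Icc 1 H, |(a : ℤ) + F m - n| < M) :
    (M : ℂ) * ∑ a ∈ Icc 1 A, ∑ m ∈ Icc 1 x, G a * c m * fz f H (a + F m) =
      ∑ t ∈ range M, (∑ n ∈ Icc 1 H, f n * ee ((t : ℝ) * ((((-1 : ℤ) * n : ℤ) : ℝ) / M))) *
        (∑ a ∈ Icc 1 A, G a * ee ((t : ℝ) * ((((1 : ℤ) * a : ℤ) : ℝ) / M))) *
        (∑ m ∈ Icc 1 x, c m * ee ((t : ℝ) * ((F m : ℝ) / M))) := by
  have h1 : ∀ t ∈ range M, (∑ n ∈ Icc 1 H, f n * ee ((t : ℝ) * ((((-1 : ℤ) * n : ℤ) : ℝ) / M))) *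
        (∑ a ∈ Icc 1 A, G a * ee ((t : ℝ) * ((((1 : ℤ) * a : ℤ) : ℝ) / M))) *
        (∑ m ∈ Icc 1 x, c m * ee ((t : ℝ) * ((F m : ℝ) / M))) = ∑ a ∈ Icc 1 A, ∑ m ∈ Icc 1 x, ∑ n ∈ Icc 1 H,
      G a * c m * f n * ee ((t : ℝ) * ((((a : ℤ) + F m - n : ℤ) : ℝ) / M)) := by
    intro t _
    rw [← triple]
    apply sum_congr rfl
    intro a _
    apply sum_congr rfl
    intro m _
    apply sum_congr rfl
    intro n _
    have h2 : ee ((t : ℝ) * ((((a : ℤ) + F m - n : ℤ) : ℝ) / M)) =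
        ee ((t : ℝ) * ((((1 : ℤ) * a : ℤ) : ℝ) / M)) * ee ((t : ℝ) * ((((-1 : ℤ) * n : ℤ) : ℝ) / M)) * ee ((t : ℝ) * ((F m : ℝ) / M)) := by
      rw [← ee_add, ← ee_add]
      congr 1
      push_cast
      ring
    rw [h2]
    ring
  rw [sum_congr rfl h1]
  symm
  rw [sum_comm, mul_sum]
  apply sum_congr rfl
  intro a ha
  rw [sum_comm, mul_sum]
  apply sum_congr rfl
  intro m hm
  rw [sum_comm]
  have h2 : ∀ n ∈ Icc 1 H, ∑ t ∈ range M, G a * c m * f n * ee ((t : ℝ) * ((((a : ℤ) + F m - n : ℤ) : ℝ) / M)) =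
      if (n : ℤ) = a + F m then (M : ℂ) * (G a * c m * f n) else 0 := by
    intro n hn
    rw [← mul_sum, orth M hM1]
    by_cases h3 : (n : ℤ) = a + F m
    · rw [if_pos h3, if_pos (by rw [h3]; simp)]
      ring
    · rw [if_neg h3, if_neg, mul_zero]
      intro hd
      apply h3
      have := Int.eq_zero_of_abs_lt_dvd hd (hM a ha m hm n hn)
      omega
  rw [sum_congr rfl h2]
  unfold fz
  by_cases h3 : 1 ≤ (a : ℤ) + F m ∧ (a : ℤ) + F m ≤ H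
  · rw [if_pos h3, sum_eq_single ((a : ℤ) + F m).toNat]
    · rw [if_pos (by rw [Int.toNat_of_nonneg (by omega)])]
    · intro n _ hne
      rw [if_neg]
      intro h4
      apply hne
      omega
    · intro h4
      exfalso
      apply h4
      rw [mem_Icc]
      omega
  · rw [if_neg h3, mul_zero, mul_zero]
    apply sum_eq_zero
    intro n hn
    rw [mem_Icc] at hn
    rw [if_neg]
    omega

/-- Hölder's inequality in the shape needed -/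
lemma holder (M p : ℕ) (hp : 1 ≤ p) (a b c : ℕ → ℝ) (ha : ∀ t, 0 ≤ a t) (hb : ∀ t, 0 ≤ b t) (hc : ∀ t, 0 ≤ c t)
    (δ U V E : ℝ) (had : ∀ t, a t ≤ δ) (hU : ∑ t ∈ range M, a t ^ 2 ≤ U)
    (hV : ∑ t ∈ range M, b t ^ 2 ≤ V) (hE : ∑ t ∈ range M, c t ^ (2 * p) ≤ E) :
    (∑ t ∈ range M, a t * b t * c t) ^ (2 * p) ≤ V ^ p * (U ^ (p - 1) * (δ ^ 2 * E)) := by
  have hp0 : (0 : ℝ) < p := by exact_mod_cast hp
  have hp1 : (1 : ℝ) ≤ p := by exact_mod_cast hp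
  have hU0 : 0 ≤ U := (sum_nonneg fun _ _ => by positivity).trans hU
  have hV0 : 0 ≤ V := (sum_nonneg fun _ _ => by positivity).trans hV
  have hw0 : 0 ≤ ∑ t ∈ range M, a t ^ 2 := sum_nonneg fun _ _ => by positivity
  have h1 : (∑ t ∈ range M, a t * b t * c t) ^ 2 ≤ (∑ t ∈ range M, a t ^ 2 * c t ^ 2) * ∑ t ∈ range M, b t ^ 2 := by
    have h := sum_mul_sq_le_sq_mul_sq (range M) (fun t => a t * c t) (fun t => b t)
    simp only [mul_pow] at h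
    refine le_trans (le_of_eq ?_) h
    congr 1
    exact sum_congr rfl fun t _ => by ring
  have hX0 : 0 ≤ ∑ t ∈ range M, a t ^ 2 * c t ^ 2 := sum_nonneg fun t _ => by positivity
  have hY0 : 0 ≤ ∑ t ∈ range M, a t ^ 2 * (c t ^ 2) ^ (p : ℝ) := sum_nonneg fun t _ => by positivity
  have h2 := Real.inner_le_weight_mul_Lp_of_nonneg (range M) hp1 (fun t => a t ^ 2) (fun t => c t ^ 2)
    (fun t => by positivity) (fun t => by positivity)
  have h3 : (∑ t ∈ range M, a t ^ 2 * c t ^ 2) ^ p ≤ (∑ t ∈ range M, a t ^ 2) ^ (p - 1) * ∑ t ∈ range M, a t ^ 2 * (c t ^ 2) ^ (p : ℝ) := by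
    refine (pow_le_pow_left₀ hX0 h2 p).trans (le_of_eq ?_)
    rw [mul_pow, ← Real.rpow_natCast (_ ^ ((p : ℝ)⁻¹)), ← Real.rpow_mul hY0, inv_mul_cancel₀ hp0.ne', Real.rpow_one]
    congr 1
    rw [← Real.rpow_natCast, ← Real.rpow_mul hw0, ← Real.rpow_natCast]
    congr 1
    rw [Nat.cast_sub hp]
    push_cast
    field_simp
  have h4 : ∑ t ∈ range M, a t ^ 2 * (c t ^ 2) ^ (p : ℝ) ≤ δ ^ 2 * E := by
    have e1 : ∀ t ∈ range M, a t ^ 2 * (c t ^ 2) ^ (p : ℝ) ≤ δ ^ 2 * c t ^ (2 * p) := by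
      intro t _
      rw [Real.rpow_natCast, ← pow_mul]
      have := hc t
      exact mul_le_mul_of_nonneg_right (pow_le_pow_left₀ (ha t) (had t) 2) (by positivity)
    refine (sum_le_sum e1).trans ?_
    rw [← mul_sum]
    exact mul_le_mul_of_nonneg_left hE (by positivity)
  have h5 : (∑ t ∈ range M, a t ^ 2 * c t ^ 2) ^ p ≤ U ^ (p - 1) * (δ ^ 2 * E) := by
    refine h3.trans ?_
    exact mul_le_mul (pow_le_pow_left₀ hw0 hU _) h4 hY0 (by positivity)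
  have hb0 : 0 ≤ ∑ t ∈ range M, b t ^ 2 := sum_nonneg fun _ _ => by positivity
  calc (∑ t ∈ range M, a t * b t * c t) ^ (2 * p) = ((∑ t ∈ range M, a t * b t * c t) ^ 2) ^ p := by rw [← pow_mul]
    _ ≤ ((∑ t ∈ range M, a t ^ 2 * c t ^ 2) * ∑ t ∈ range M, b t ^ 2) ^ p := pow_le_pow_left₀ (by positivity) h1 p
    _ = (∑ t ∈ range M, b t ^ 2) ^ p * (∑ t ∈ range M, a t ^ 2 * c t ^ 2) ^ p := by rw [mul_pow, mul_comm]
    _ ≤ _ := mul_le_mul (pow_le_pow_left₀ hb0 hV p) h5 (by positivity) (by positivity)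

theorem main : S_KEY := by
  intro p N A H hp hN1 hA hH ι _ v hv G f K Δ hK hΔ hG hf hsup
  have hN0 : (0 : ℝ) < N := by exact_mod_cast hN1
  have hp0 : (0 : ℝ) ≤ p := Nat.cast_nonneg p
  rcases isEmpty_or_nonempty ι with hι | hι
  · simp only [univ_eq_empty, sum_empty]
    rw [zero_pow (by omega)]
    positivity
  obtain ⟨g, hinj, hsurj⟩ := enum ι
  obtain ⟨x, hx⟩ : ∃ x, x = Fintype.card ι := ⟨_, rfl⟩
  obtain ⟨s, hs⟩ : ∃ s : ℕ → ℤ, s = fun m => v (g m) := ⟨_, rfl⟩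
  have hsB : ∀ m ∈ Icc 1 x, |s m| ≤ ((N : ℕ) : ℤ) := by
    intro m _
    rw [hs]
    exact hv (g m)
  have hen : (energy p x s : ℝ) ≤ En p v := by
    have := energy_enum p v g 0 hinj
    simp only [sub_zero] at this
    rw [hs, hx]
    exact_mod_cast this
  obtain ⟨M, hM⟩ : ∃ M : ℕ, M = (4 * p + 5) * N := ⟨_, rfl⟩
  have hM5 : 5 * N ≤ M := by rw [hM]; exact Nat.mul_le_mul_right _ (by omega)
  have hM1 : 1 ≤ M := by omega
  have hM0 : (0 : ℝ) < M := by exact_mod_cast hM1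
  have hcond : ∀ a ∈ Icc 1 A, ∀ m ∈ Icc 1 x, ∀ n ∈ Icc 1 H, |(a : ℤ) + s m - n| < M := by
    intro a ha m hm n hn
    have h4 := abs_le.1 (hsB m hm)
    rw [mem_Icc] at ha hn
    have h5 : (a : ℤ) ≤ 2 * N := by exact_mod_cast ha.2.trans hA
    have h6 : (n : ℤ) ≤ 2 * N := by exact_mod_cast hn.2.trans hH
    have h7 : (5 : ℤ) * N ≤ M := by exact_mod_cast hM5
    have h9 : (1 : ℤ) ≤ N := by exact_mod_cast hN1
    have h10 : (0 : ℤ) ≤ a := by positivity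
    have h11 : (0 : ℤ) ≤ n := by positivity
    rw [abs_lt]
    constructor <;> linarith [h4.1, h4.2]
  have hmomE := moment_energy p x s M N hM1 hsB (by
    rw [hM]
    exact Nat.mul_lt_mul_of_pos_right (by omega) hN1)
  obtain ⟨S, hS⟩ : ∃ S : ℕ → ℝ, S = fun m => ∑ a ∈ Icc 1 A, G a *
      (if 1 ≤ (a : ℤ) + s m ∧ (a : ℤ) + s m ≤ H then f ((a : ℤ) + s m).toNat else 0) := ⟨_, rfl⟩
  obtain ⟨c, hc⟩ : ∃ c : ℕ → ℂ, c = fun m => if 0 ≤ S m then 1 else -1 := ⟨_, rfl⟩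
  have hc1 : ∀ m, ‖c m‖ ≤ 1 := by
    intro m
    rw [hc]
    simp only
    split_ifs <;> simp
  have hcS : ∀ m, c m * (S m : ℂ) = ((|S m| : ℝ) : ℂ) := by
    intro m
    rw [hc]
    simp only
    split_ifs with h
    · rw [abs_of_nonneg h, one_mul]
    · rw [abs_of_neg (not_le.1 h)]
      push_cast
      ring
  have hA' : ((A : ℕ) : ℝ) ≤ 2 * N := by exact_mod_cast hA
  have hH' : ((H : ℕ) : ℝ) ≤ 2 * N := by exact_mod_cast hH
  have hG2 : ∑ a ∈ Icc 1 A, ‖((G a : ℝ) : ℂ)‖ ^ 2 ≤ 2 * N * K ^ 2 := by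
    have q1 : ∀ a ∈ Icc 1 A, ‖((G a : ℝ) : ℂ)‖ ^ 2 ≤ K ^ 2 := by
      intro a ha
      rw [Complex.norm_real, Real.norm_eq_abs]
      exact pow_le_pow_left₀ (abs_nonneg _) (hG a ha) 2
    refine (sum_le_sum q1).trans ?_
    rw [sum_const, Nat.card_Icc, nsmul_eq_mul, Nat.add_sub_cancel]
    exact mul_le_mul_of_nonneg_right hA' (by positivity)
  have hf2 : ∑ a ∈ Icc 1 H, ‖((f a : ℝ) : ℂ)‖ ^ 2 ≤ 2 * N * K ^ 2 := by
    have q1 : ∀ a ∈ Icc 1 H, ‖((f a : ℝ) : ℂ)‖ ^ 2 ≤ K ^ 2 := by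
      intro a ha
      rw [Complex.norm_real, Real.norm_eq_abs]
      exact pow_le_pow_left₀ (abs_nonneg _) (hf a ha) 2
    refine (sum_le_sum q1).trans ?_
    rw [sum_const, Nat.card_Icc, nsmul_eq_mul, Nat.add_sub_cancel]
    exact mul_le_mul_of_nonneg_right hH' (by positivity)
  have key := hid A H x M hM1 (fun n => ((f n : ℝ) : ℂ)) (fun n => ((G n : ℝ) : ℂ)) c s hcond
  have heq : ∑ a ∈ Icc 1 A, ∑ m ∈ Icc 1 x, ((G a : ℝ) : ℂ) * c m * fz (fun n => ((f n : ℝ) : ℂ)) H (a + s m) =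
      ((∑ m ∈ Icc 1 x, |S m| : ℝ) : ℂ) := by
    rw [sum_comm]
    push_cast
    apply sum_congr rfl
    intro m _
    rw [← hcS m, hS]
    push_cast
    rw [mul_sum]
    apply sum_congr rfl
    intro a _
    unfold fz
    split_ifs <;> simp
    ring
  rw [heq] at key
  have e1 : ∑ i, |∑ a ∈ Icc 1 A, G a * (if 1 ≤ (a : ℤ) + v i ∧ (a : ℤ) + v i ≤ H then f ((a : ℤ) + v i).toNat else 0)| =
      ∑ m ∈ Icc 1 x, |S m| := by
    rw [hx, ← sum_enum g hinj hsurj, hS, hs]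
  rw [e1]
  set fh : ℕ → ℂ := fun t => ∑ n ∈ Icc 1 H, ((f n : ℝ) : ℂ) * ee ((t : ℝ) * ((((-1 : ℤ) * n : ℤ) : ℝ) / M)) with hfh
  set Gh : ℕ → ℂ := fun t => ∑ a ∈ Icc 1 A, ((G a : ℝ) : ℂ) * ee ((t : ℝ) * ((((1 : ℤ) * a : ℤ) : ℝ) / M)) with hGh
  set Sh : ℕ → ℂ := fun t => ∑ m ∈ Icc 1 x, c m * ee ((t : ℝ) * ((s m : ℝ) / M)) with hSh
  have hSS : 0 ≤ ∑ m ∈ Icc 1 x, |S m| := sum_nonneg fun _ _ => abs_nonneg _
  have hle : M * ∑ m ∈ Icc 1 x, |S m| ≤ ∑ t ∈ range M, ‖fh t‖ * ‖Gh t‖ * ‖Sh t‖ := by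
    have h1 : ‖(M : ℂ) * ((∑ m ∈ Icc 1 x, |S m| : ℝ) : ℂ)‖ = M * ∑ m ∈ Icc 1 x, |S m| := by
      rw [norm_mul, Complex.norm_natCast, Complex.norm_real, Real.norm_of_nonneg hSS]
    rw [← h1, key]
    refine (norm_sum_le _ _).trans (le_of_eq ?_)
    apply sum_congr rfl
    intro t _
    rw [norm_mul, norm_mul]
  have hfh1 : ∀ t, ‖fh t‖ ≤ Δ := by
    intro t
    have h1 : fh t = ∑ n ∈ Icc 1 H, ((f n : ℝ) : ℂ) * ee ((n : ℝ) * (-(t : ℝ) / M)) := by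
      rw [hfh]
      apply sum_congr rfl
      intro n _
      congr 2
      push_cast
      ring
    rw [h1]
    exact hsup _
  have hU : ∑ t ∈ range M, ‖fh t‖ ^ 2 ≤ M * (2 * N * K ^ 2) := by
    have h3 := parseval_Icc H M hM1 (by omega) (fun n => ((f n : ℝ) : ℂ)) (-1) (Or.inr rfl)
    rw [hfh]
    simp only at h3 ⊢
    rw [h3]
    exact mul_le_mul_of_nonneg_left hf2 hM0.le
  have hV : ∑ t ∈ range M, ‖Gh t‖ ^ 2 ≤ M * (2 * N * K ^ 2) := by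
    have h3 := parseval_Icc A M hM1 (by omega) (fun n => ((G n : ℝ) : ℂ)) 1 (Or.inl rfl)
    rw [hGh]
    simp only at h3 ⊢
    rw [h3]
    exact mul_le_mul_of_nonneg_left hG2 hM0.le
  have hE : ∑ t ∈ range M, ‖Sh t‖ ^ (2 * p) ≤ M * En p v := by
    refine (majorant_pow p x c hc1 s M hM1).trans ?_
    rw [hmomE]
    exact mul_le_mul_of_nonneg_left hen hM0.le
  have hH := holder M p hp (fun t => ‖fh t‖) (fun t => ‖Gh t‖) (fun t => ‖Sh t‖) (fun _ => norm_nonneg _) (fun _ => norm_nonneg _)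
    (fun _ => norm_nonneg _) Δ _ _ _ hfh1 hU hV hE
  have hfin := (pow_le_pow_left₀ (by positivity) hle (2 * p)).trans hH
  rw [mul_pow] at hfin
  have hMp : (0 : ℝ) < (M : ℝ) ^ (2 * p) := by positivity
  rw [← mul_le_mul_iff_right₀ hMp]
  refine hfin.trans (le_of_eq ?_)
  obtain ⟨q, rfl⟩ : ∃ q, p = q + 1 := ⟨p - 1, by omega⟩
  have e2 : q + 1 - 1 = q := by omega
  have e3 : 2 * (q + 1) - 1 = 2 * q + 1 := by omega
  rw [e2, e3]
  ring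

end Pool.Agent.H30.ES.KEY
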