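import Pool.Agent.H30.ES.Stm

/-!
Stub MAINY of project ES: the family bound with the truncated main term.
-/

set_option autoImplicit false

namespace Pool.Agent.H30.ES.MAINY

open Finset Polynomial
open Pool.Agent.H807R2.Dav
open Pool.Agent.TH212.DV
open Pool.Agent.TH212.PS
open Pool.Agent.TH212.PL (En)
open Pool.Agent.H30.ES

theorem main (hPAR : S_PAR) (hSUP : S_SUP) (hDEC : S_DEC) (hKEY : S_KEY) : S_MAINY := by
  intro t p κ δ ε hp hκ hδ h3 ht hε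
  have hp1 : (1 : ℝ) ≤ p := by exact_mod_cast hp
  have hp0 : (0 : ℝ) < p := by linarith
  have hκ2 : κ ≤ 1 / 2 := by linarith
  obtain ⟨e, he0, he1, he2⟩ : ∃ e : ℝ, 0 < e ∧ 26 * p * e ≤ ε ∧ 8 * e ≤ δ := by
    refine ⟨min (ε / (26 * p)) (δ / 8), by positivity, ?_, ?_⟩
    · calc 26 * p * min (ε / (26 * p)) (δ / 8) ≤ 26 * p * (ε / (26 * p)) :=
            mul_le_mul_of_nonneg_left (min_le_left _ _) (by positivity)
        _ = ε := by field_simp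
    · have := min_le_right (ε / (26 * p)) (δ / 8)
      linarith
  obtain ⟨n1, h1⟩ := hPAR κ hκ hκ2
  obtain ⟨n2, h2⟩ := hSUP t κ e hκ hκ2 he0
  obtain ⟨n3, h3'⟩ := pt_bounds t e he0
  obtain ⟨n4, h4⟩ := pt_ww t e he0
  obtain ⟨n6, h6⟩ := ev_pow 0 16012 e he0
  obtain ⟨n7, h7⟩ := ev_pow 1 3 e he0
  obtain ⟨n8, h8⟩ := ev_log 1
  refine ⟨e, he0, n1 + n2 + n3 + n4 + n6 + n7 + n8 + 2, fun N hN ι _ v hv hbad => ?_⟩
  obtain ⟨hY2, _, hY3, _, hz1, _, hz2, hz3, hD2⟩ := h1 N (by omega)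
  have s2 := h2 N (by omega)
  have s3 := h3' N (by omega)
  have s4 := h4 N (by omega)
  have a6 := h6 N (by omega)
  have a7 := h7 N (by omega)
  have a8 := h8 N (by omega)
  rw [pow_zero, mul_one] at a6
  rw [pow_one] at a7
  have hN1 : 1 ≤ N := by omega
  have hN0 : (0 : ℝ) < N := by exact_mod_cast hN1
  have hNr : (1 : ℝ) ≤ N := by exact_mod_cast hN1
  obtain ⟨Y, hY⟩ : ∃ Y, Y = Yk κ N := ⟨_, rfl⟩
  obtain ⟨z, hz⟩ : ∃ z, z = zk κ N := ⟨_, rfl⟩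
  obtain ⟨D, hD⟩ : ∃ D, D = Dk κ N := ⟨_, rfl⟩
  have hDd : D = 2 * N / Y := by rw [hD, hY]; rfl
  obtain ⟨H, hH⟩ : ∃ H, H = 2 * N := ⟨_, rfl⟩
  obtain ⟨K, hK⟩ : ∃ K : ℝ, K = (N : ℝ) ^ e := ⟨_, rfl⟩
  have hfk : ∀ n, fk t κ N n = FY (WE Y t) Y D n - MY (WE Y t) Y D z n := by
    intro n; rw [hY, hz, hD]; rfl
  have hMk : ∀ x h, Mk t κ N z x h = Mn (WE Y t) Y D z x h := by
    intro x h; rw [hY, hD]; rfl
  rw [← hK] at a6 a7
  rw [← hY] at hY2 hY3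
  rw [← hz] at hz1 hz2 hz3 hbad
  rw [← hD] at hz3 hD2
  simp only [hfk] at s2
  simp only [hMk] at hbad
  have hK1 : 1 ≤ K := by linarith
  have hK0 : 0 < K := by linarith
  have hlogz : 1 + Real.log z ≤ K := by
    have g1 : (z : ℝ) ≤ (N : ℝ) ^ 2 := by
      have g2 : (z : ℝ) ≤ 2 * N := by exact_mod_cast hz3.trans hD2
      have g3 : (2 : ℝ) ≤ N := by exact_mod_cast (by omega : 2 ≤ N)
      nlinarith
    have g2 := Real.log_le_log (by exact_mod_cast hz1 : (0 : ℝ) < z) g1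
    rw [Real.log_pow] at g2
    push_cast at g2
    linarith
  have hlogz0 : 0 ≤ 1 + Real.log z := by
    have := Real.log_natCast_nonneg z
    linarith
  have hpt : ∀ n, 1 ≤ n → n ≤ H → (dk (t + 2) n : ℝ) ≤ K ∧ FY (WE Y t) Y D n ≤ K ∧ |MY (WE Y t) Y D z n| ≤ K := by
    intro n hn1 hn2
    rw [hK]
    exact s3 Y D z n hD2 (hz3.trans hD2) hn1 (by omega)
  have hww : ∀ q ∈ Icc 1 z, ∀ n : ℕ, ww (WE Y t) Y D q n ≤ K / q := by
    intro q hq n
    rw [mem_Icc] at hq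
    rw [hK]
    exact s4 Y D q n hD2 hq.1 (by omega)
  have hYD : ∀ a n, n ≤ H → a * Y < n → a ≤ D := by
    intro a n hn ha
    rw [hDd, Nat.le_div_iff_mul_le (by omega)]
    omega
  -- powers of `K`
  have hK8 : K ^ 8 = (N : ℝ) ^ (8 * e) := by
    rw [hK, ← Real.rpow_natCast ((N : ℝ) ^ e), ← Real.rpow_mul hN0.le]
    congr 1
    push_cast
    ring
  obtain ⟨Q, hQ⟩ : ∃ Q : ℝ, Q = (N : ℝ) / K ^ 8 := ⟨_, rfl⟩
  have hK8pos : 0 < K ^ 8 := by positivity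
  have hQ0 : 0 < Q := by rw [hQ]; positivity
  have hQN : Q * K ^ 8 = N := by rw [hQ]; field_simp
  have hQd : (N : ℝ) ^ (1 - δ) ≤ Q := by
    rw [hQ, le_div_iff₀ hK8pos, hK8, ← Real.rpow_add hN0]
    calc (N : ℝ) ^ (1 - δ + 8 * e) ≤ (N : ℝ) ^ (1 : ℝ) :=
          Real.rpow_le_rpow_of_exponent_le hNr (by linarith)
      _ = N := Real.rpow_one _
  have hQ1 : 1 ≤ Q := (Real.one_le_rpow hNr (by linarith)).trans hQd
  -- the grid
  obtain ⟨L, hL⟩ : ∃ L : ℕ, L = ⌈Q⌉₊ := ⟨_, rfl⟩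
  have hL1 : Q ≤ L := by rw [hL]; exact Nat.le_ceil _
  have hL2 : (L : ℝ) ≤ 2 * Q := by
    have := (Nat.ceil_lt_add_one hQ0.le).le
    rw [← hL] at this
    linarith
  have hLpos : 0 < L := by
    have : (1 : ℝ) ≤ L := hQ1.trans hL1
    exact_mod_cast this
  have hJ : ((N / L : ℕ) : ℝ) + 1 ≤ 2 * K ^ 8 := by
    have g1 : ((N / L : ℕ) : ℝ) ≤ (N : ℝ) / L := Nat.cast_div_le
    have g2 : (N : ℝ) / L ≤ K ^ 8 := by
      rw [div_le_iff₀ (by exact_mod_cast hLpos)]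
      calc (N : ℝ) = K ^ 8 * Q := by rw [← hQN]; ring
        _ ≤ _ := mul_le_mul_of_nonneg_left hL1 hK8pos.le
    have g3 : 1 ≤ K ^ 8 := one_le_pow₀ hK1
    linarith
  -- the two families of sums
  obtain ⟨f, hf⟩ : ∃ f : ℕ → ℝ, f = fun n => FY (WE Y t) Y D n - MY (WE Y t) Y D z n := ⟨_, rfl⟩
  obtain ⟨T1, hT1⟩ : ∃ T1 : ℕ → ℤ → ℝ, T1 = fun (x : ℕ) (h : ℤ) => ∑ a ∈ Icc 1 x, (dk (t + 2) a : ℝ) *
    (if 1 ≤ (a : ℤ) + h ∧ (a : ℤ) + h ≤ H then f ((a : ℤ) + h).toNat else 0) := ⟨_, rfl⟩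
  obtain ⟨T2, hT2⟩ : ∃ T2 : ℕ → ℤ → ℝ, T2 = fun (x : ℕ) (h : ℤ) => ∑ a ∈ Icc 1 H, MY (WE Y t) Y D z a *
    (if 1 ≤ (a : ℤ) + -h ∧ (a : ℤ) + -h ≤ x then f ((a : ℤ) + -h).toNat else 0) := ⟨_, rfl⟩
  have hfb : ∀ n, 1 ≤ n → n ≤ H → |f n| ≤ 2 * K := by
    intro n hn1 hn2
    obtain ⟨_, g2, g3⟩ := hpt n hn1 hn2
    rw [hf]
    simp only
    have g4 : |FY (WE Y t) Y D n| ≤ K := by rw [abs_of_nonneg (FY_nonneg _ (WE_nonneg Y t) _ _ _)]; exact g2
    refine (abs_sub _ _).trans ?_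
    linarith
  obtain ⟨Δ, hΔ⟩ : ∃ Δ : ℝ, Δ = (N : ℝ) ^ (1 - κ + e) := ⟨_, rfl⟩
  have hΔ0 : 0 ≤ Δ := by rw [hΔ]; positivity
  have hsup : ∀ A : ℕ, A ≤ 2 * N → ∀ α : ℝ, ‖∑ n ∈ Icc 1 A, ((f n : ℝ) : ℂ) * ee ((n : ℝ) * α)‖ ≤ Δ := by
    intro A hA α
    rw [hf, hΔ]
    exact s2 A hA α
  obtain ⟨R, hR⟩ : ∃ R : ℝ, R = Δ ^ 2 * (2 * N * (2 * K) ^ 2) ^ (2 * p - 1) * En p v := ⟨_, rfl⟩
  have hR0 : 0 ≤ R := by rw [hR]; positivity
  obtain ⟨B, hB⟩ : ∃ B : ℝ, B = R ^ (((2 * p : ℕ) : ℝ)⁻¹) := ⟨_, rfl⟩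
  have hB0 : 0 ≤ B := by rw [hB]; positivity
  have hp2 : 2 * p ≠ 0 := by omega
  have hBR : B ^ (2 * p) = R := by
    rw [hB]
    exact Real.rpow_inv_natCast_pow hR0 hp2
  have b1 : ∀ x : ℕ, x ≤ N → ∑ i, |T1 x (v i)| ≤ B := by
    intro x hx
    apply le_of_pow_le_pow_left₀ hp2 hB0
    rw [hBR, hR, hT1]
    exact hKEY p N x H hp hN1 (by omega) (by omega) ι v hv (fun a => (dk (t + 2) a : ℝ)) f (2 * K) Δ
      (by positivity) hΔ0 (by
        intro a ha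
        rw [mem_Icc] at ha
        show |(dk (t + 2) a : ℝ)| ≤ _
        rw [abs_of_nonneg (Nat.cast_nonneg _)]
        have := (hpt a ha.1 (by omega)).1
        linarith) (by
        intro n hn
        rw [mem_Icc] at hn
        exact hfb n hn.1 hn.2) (hsup H (by omega))
  have b2 : ∀ x : ℕ, x ≤ N → ∑ i, |T2 x (v i)| ≤ B := by
    intro x hx
    apply le_of_pow_le_pow_left₀ hp2 hB0
    rw [hBR, hR, hT2]
    have := hKEY p N H x hp hN1 (by omega) (by omega) ι (fun i => -v i) (fun i => by rw [abs_neg]; exact hv i)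
      (fun a => MY (WE Y t) Y D z a) f (2 * K) Δ (by positivity) hΔ0 (by
        intro a ha
        rw [mem_Icc] at ha
        have := (hpt a ha.1 ha.2).2.2
        show |MY (WE Y t) Y D z a| ≤ _
        linarith) (by
        intro n hn
        rw [mem_Icc] at hn
        exact hfb n hn.1 (by omega)) (hsup x (by omega))
    rw [En_neg] at this
    exact this
  obtain ⟨F, hF⟩ : ∃ F : ι → ℝ, F = fun i => ∑ j ∈ range (N / L + 1), (|T1 (j * L) (v i)| + |T2 (j * L) (v i)|) := ⟨_, rfl⟩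
  have hcard0 : (0 : ℝ) ≤ Fintype.card ι := Nat.cast_nonneg _
  have hFsum : ∑ i, F i ≤ 4 * K ^ 8 * B := by
    rw [hF]
    simp only
    rw [sum_comm]
    have g1 : ∀ j ∈ range (N / L + 1), ∑ i, (|T1 (j * L) (v i)| + |T2 (j * L) (v i)|) ≤ 2 * B := by
      intro j hj
      rw [mem_range] at hj
      have g2 : j * L ≤ N := (Nat.mul_le_mul_right L (by omega : j ≤ N / L)).trans (Nat.div_mul_le_self N L)
      rw [sum_add_distrib]
      linarith [b1 _ g2, b2 _ g2]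
    refine (sum_le_sum g1).trans ?_
    rw [sum_const, card_range, nsmul_eq_mul]
    push_cast
    calc (((N / L : ℕ) : ℝ) + 1) * (2 * B) ≤ 2 * K ^ 8 * (2 * B) := mul_le_mul_of_nonneg_right hJ (by positivity)
      _ = _ := by ring
  have hNe : (N : ℝ) ^ (1 - e) = Q * K ^ 7 := by
    have g1 : (N : ℝ) ^ (1 - e) * K = Q * K ^ 8 := by
      rw [hQN, hK, ← Real.rpow_add hN0]
      rw [show 1 - e + e = 1 by ring, Real.rpow_one]
    have g2 : Q * K ^ 8 = Q * K ^ 7 * K := by ring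
    rw [g2] at g1
    exact mul_right_cancel₀ hK0.ne' g1
  -- every element has a large sum
  have hFlow : ∀ i, Q * K ^ 7 / 2 ≤ F i := by
    intro i
    obtain ⟨x, hx, hbig⟩ := hbad i
    rw [hNe] at hbig
    obtain ⟨j, hj⟩ : ∃ j, j = x / L := ⟨_, rfl⟩
    have hjL : j * L ≤ x := by rw [hj]; exact Nat.div_mul_le_self x L
    have hxj : x < j * L + L := by
      rw [hj]
      have := Nat.lt_div_mul_add hLpos (a := x)
      exact this
    have hjJ : j < N / L + 1 := by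
      rw [hj]
      exact Nat.lt_succ_of_le (Nat.div_le_div_right hx)
    have hd := hDEC t Y D z (j * L) N H (v i) K hK0.le hz1 (hjL.trans hx) hH (hv i) hYD hpt hww
    have hTF : |T1 (j * L) (v i)| + |T2 (j * L) (v i)| ≤ F i := by
      rw [hF]
      exact single_le_sum (f := fun j => |T1 (j * L) (v i)| + |T2 (j * L) (v i)|)
        (fun j _ => add_nonneg (abs_nonneg _) (abs_nonneg _)) (mem_range.2 hjJ)
    refine le_trans ?_ hTF
    have hd' : |Dr (t + 2) (j * L) (v i) - Mn (WE Y t) Y D z (j * L) (v i)| ≤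
        |T1 (j * L) (v i)| + |T2 (j * L) (v i)| +
        (2 * (Y : ℝ) ^ (t + 2) * K ^ 2 + 1000 * (z : ℝ) ^ 3 * (1 + Real.log z) ^ 2 * K ^ 2) := by
      rw [hT1, hT2, hf]
      exact hd
    have i1 := Dr_inc (t + 2) (j * L) x N (v i) K hK0.le hjL hx (hv i) (fun n g1 g2 => (hpt n g1 (by omega)).1)
    have i2 := Mn_inc (WE Y t) (WE_nonneg Y t) Y D z (j * L) x (v i) K hK0.le hjL hww
    have hxr : (x : ℝ) - ((j * L : ℕ) : ℝ) ≤ L := by
      have : (x : ℝ) < ((j * L : ℕ) : ℝ) + L := by exact_mod_cast hxj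
      linarith
    have hK23 : K ^ 2 ≤ K ^ 4 := pow_le_pow_right₀ hK1 (by norm_num)
    have hK34 : K ^ 3 ≤ K ^ 4 := pow_le_pow_right₀ hK1 (by norm_num)
    have i1' : |Dr (t + 2) x (v i) - Dr (t + 2) (j * L) (v i)| ≤ 2 * (Q * K ^ 4) := by
      refine i1.trans ?_
      calc ((x : ℝ) - ((j * L : ℕ) : ℝ)) * K ^ 2 ≤ (2 * Q) * K ^ 4 :=
            mul_le_mul (hxr.trans hL2) hK23 (by positivity) (by positivity)
        _ = _ := by ring
    have i2' : |Mn (WE Y t) Y D z x (v i) - Mn (WE Y t) Y D z (j * L) (v i)| ≤ 2 * (Q * K ^ 4) := by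
      refine i2.trans ?_
      calc ((x : ℝ) - ((j * L : ℕ) : ℝ)) * K ^ 2 * (1 + Real.log z) ≤ (2 * Q) * K ^ 2 * K := by
            apply mul_le_mul _ hlogz hlogz0 (by positivity)
            exact mul_le_mul_of_nonneg_right (hxr.trans hL2) (by positivity)
        _ = 2 * (Q * K ^ 3) := by ring
        _ ≤ _ := by
            apply mul_le_mul_of_nonneg_left _ (by norm_num)
            exact mul_le_mul_of_nonneg_left hK34 hQ0.le
    have hYr : (Y : ℝ) ^ (t + 2) ≤ Q := by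
      refine le_trans ?_ hQd
      calc (Y : ℝ) ^ (t + 2) ≤ ((N : ℝ) ^ κ) ^ (t + 2) := pow_le_pow_left₀ (Nat.cast_nonneg _) hY3 _
        _ = (N : ℝ) ^ (κ * ((t : ℝ) + 2)) := by
            rw [← Real.rpow_natCast, ← Real.rpow_mul hN0.le]
            push_cast
            rfl
        _ ≤ _ := Real.rpow_le_rpow_of_exponent_le hNr (by linarith)
    have hz3' : (z : ℝ) ^ 3 ≤ 8 * Q := by
      calc (z : ℝ) ^ 3 ≤ (2 * (N : ℝ) ^ κ) ^ 3 := pow_le_pow_left₀ (Nat.cast_nonneg _) hz2 3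
        _ = 8 * ((N : ℝ) ^ κ) ^ 3 := by ring
        _ = 8 * (N : ℝ) ^ (3 * κ) := by
            rw [← Real.rpow_natCast, ← Real.rpow_mul hN0.le]
            congr 2
            push_cast
            ring
        _ ≤ 8 * (N : ℝ) ^ (1 - δ) := by
            apply mul_le_mul_of_nonneg_left _ (by norm_num)
            exact Real.rpow_le_rpow_of_exponent_le hNr (by linarith)
        _ ≤ _ := mul_le_mul_of_nonneg_left hQd (by norm_num)
    have g1 : 2 * (Y : ℝ) ^ (t + 2) * K ^ 2 ≤ 2 * (Q * K ^ 4) := by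
      calc 2 * (Y : ℝ) ^ (t + 2) * K ^ 2 ≤ (2 * Q) * K ^ 4 :=
            mul_le_mul (by linarith) hK23 (by positivity) (by positivity)
        _ = _ := by ring
    have g2 : 1000 * (z : ℝ) ^ 3 * (1 + Real.log z) ^ 2 * K ^ 2 ≤ 8000 * (Q * K ^ 4) := by
      have g3 : (1 + Real.log z) ^ 2 ≤ K ^ 2 := pow_le_pow_left₀ hlogz0 hlogz 2
      calc 1000 * (z : ℝ) ^ 3 * (1 + Real.log z) ^ 2 * K ^ 2 ≤ (1000 * (8 * Q)) * K ^ 2 * K ^ 2 := by
            apply mul_le_mul_of_nonneg_right _ (by positivity)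
            exact mul_le_mul (by linarith) g3 (by positivity) (by positivity)
        _ = _ := by ring
    have hQK : 0 ≤ Q * K ^ 4 := by positivity
    have j4 : 16012 * (Q * K ^ 4) ≤ Q * K ^ 7 := by
      have g5 : K ^ 1 ≤ K ^ 3 := pow_le_pow_right₀ hK1 (by norm_num)
      rw [pow_one] at g5
      calc 16012 * (Q * K ^ 4) ≤ K ^ 3 * (Q * K ^ 4) :=
            mul_le_mul_of_nonneg_right (a6.trans g5) hQK
        _ = _ := by ring
    have j3 : |Dr (t + 2) x (v i) - Mn (WE Y t) Y D z x (v i)| ≤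
        |T1 (j * L) (v i)| + |T2 (j * L) (v i)| + 8006 * (Q * K ^ 4) := by
      have e1 : Dr (t + 2) x (v i) - Mn (WE Y t) Y D z x (v i) = (Dr (t + 2) x (v i) - Dr (t + 2) (j * L) (v i)) +
          (Dr (t + 2) (j * L) (v i) - Mn (WE Y t) Y D z (j * L) (v i)) -
          (Mn (WE Y t) Y D z x (v i) - Mn (WE Y t) Y D z (j * L) (v i)) := by ring
      rw [e1]
      refine (abs_sub _ _).trans ?_
      refine (add_le_add (abs_add_le _ _) le_rfl).trans ?_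
      linarith
    linarith
  -- conclusion
  have hcardB : (Fintype.card ι : ℝ) * N ≤ 8 * K ^ 9 * B := by
    have g1 : (Fintype.card ι : ℝ) * (Q * K ^ 7 / 2) ≤ 4 * K ^ 8 * B := by
      refine le_trans ?_ hFsum
      have := sum_le_sum (s := (univ : Finset ι)) (fun i _ => hFlow i)
      rw [sum_const, card_univ, nsmul_eq_mul] at this
      exact this
    calc (Fintype.card ι : ℝ) * N = 2 * K * ((Fintype.card ι : ℝ) * (Q * K ^ 7 / 2)) := by rw [← hQN]; ring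
      _ ≤ 2 * K * (4 * K ^ 8 * B) := mul_le_mul_of_nonneg_left g1 (by positivity)
      _ = _ := by ring
  have hpow := pow_le_pow_left₀ (by positivity : 0 ≤ (Fintype.card ι : ℝ) * N) hcardB (2 * p)
  rw [mul_pow, mul_pow, hBR, hR] at hpow
  obtain ⟨m, hm⟩ : ∃ m, 2 * p = m + 1 := ⟨2 * p - 1, by omega⟩
  have hm' : 2 * p - 1 = m := by omega
  have hΔK : Δ ^ 2 = (N : ℝ) ^ (2 - 2 * κ) * K ^ 2 := by
    rw [hΔ, hK, ← Real.rpow_natCast, ← Real.rpow_natCast, ← Real.rpow_mul hN0.le, ← Real.rpow_mul hN0.le,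
      ← Real.rpow_add hN0]
    congr 1
    push_cast
    ring
  have h8K : (8 : ℝ) ≤ K := by linarith
  have hE0 : (0 : ℝ) ≤ En p v := Nat.cast_nonneg _
  have hNm : 0 < (N : ℝ) ^ m := by positivity
  have hKε : K ^ (26 * p) ≤ (N : ℝ) ^ ε := by
    rw [hK, ← Real.rpow_natCast, ← Real.rpow_mul hN0.le]
    apply Real.rpow_le_rpow_of_exponent_le hNr
    push_cast
    linarith
  have hmain : (Fintype.card ι : ℝ) ^ (2 * p) * N * (N : ℝ) ^ m ≤
      (N : ℝ) ^ ε * (N : ℝ) ^ (2 - 2 * κ) * En p v * (N : ℝ) ^ m := by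
    calc (Fintype.card ι : ℝ) ^ (2 * p) * N * (N : ℝ) ^ m = (Fintype.card ι : ℝ) ^ (2 * p) * (N : ℝ) ^ (2 * p) := by
          rw [hm]; ring
      _ ≤ (8 * K ^ 9) ^ (2 * p) * (Δ ^ 2 * (2 * N * (2 * K) ^ 2) ^ (2 * p - 1) * En p v) := hpow
      _ = (8 ^ (m + 1) * 8 ^ m * (K ^ (9 * (m + 1)) * K ^ 2 * K ^ (2 * m))) * (N : ℝ) ^ (2 - 2 * κ) * En p v * (N : ℝ) ^ m := by
          rw [hm', hΔK, hm, mul_pow, ← pow_mul, show 2 * (N : ℝ) * (2 * K) ^ 2 = 8 * K ^ 2 * N by ring, mul_pow, mul_pow,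
            ← pow_mul]
          ring
      _ ≤ (K ^ (m + 1) * K ^ m * (K ^ (9 * (m + 1)) * K ^ 2 * K ^ (2 * m))) * (N : ℝ) ^ (2 - 2 * κ) * En p v * (N : ℝ) ^ m := by
          gcongr
      _ = K ^ (13 * m + 12) * (N : ℝ) ^ (2 - 2 * κ) * En p v * (N : ℝ) ^ m := by
          congr 3
          ring
      _ ≤ K ^ (26 * p) * (N : ℝ) ^ (2 - 2 * κ) * En p v * (N : ℝ) ^ m := by
          have : K ^ (13 * m + 12) ≤ K ^ (26 * p) := pow_le_pow_right₀ hK1 (by omega)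
          gcongr
      _ ≤ _ := by gcongr
  have hmain2 := le_of_mul_le_mul_right hmain hNm
  have hfin : (N : ℝ) ^ (1 - 2 * κ + ε) * En p v * N = (N : ℝ) ^ ε * (N : ℝ) ^ (2 - 2 * κ) * En p v := by
    have g1 : (N : ℝ) ^ (1 - 2 * κ + ε) * N = (N : ℝ) ^ ε * (N : ℝ) ^ (2 - 2 * κ) := by
      rw [← Real.rpow_add hN0]
      nth_rw 2 [← Real.rpow_one (N : ℝ)]
      rw [← Real.rpow_add hN0]
      congr 1
      ring
    calc (N : ℝ) ^ (1 - 2 * κ + ε) * En p v * N = ((N : ℝ) ^ (1 - 2 * κ + ε) * N) * En p v := by ring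
      _ = _ := by rw [g1]
  rw [← hfin] at hmain2
  exact le_of_mul_le_mul_right hmain2 hN0

end Pool.Agent.H30.ES.MAINY
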