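import Pool.Agent.H30.ES.Stm

/-! # ES-SUP (helper63): the exponential sums with a power saving (adapted from `sup_pow`) -/

set_option autoImplicit false

namespace Pool.Agent.H30.ES.SUP

open Finset Polynomial
open Pool.Agent.H807R2.Dav
open Pool.Agent.TH212.DV
open Pool.Agent.TH212.PS
open Pool.Agent.H30.ES

theorem main : S_PAR → S_SUP := by
  intro hPAR t κ ε hκ0 hκ hε
  obtain ⟨η, hη⟩ : ∃ η : ℝ, η = min (ε / 4) (1 / 2) := ⟨_, rfl⟩
  have hη0 : 0 < η := by rw [hη]; exact lt_min (by positivity) (by norm_num)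
  have hη1 : η ≤ 1 / 2 := by rw [hη]; exact min_le_right _ _
  have hη2 : η ≤ ε / 4 := by rw [hη]; exact min_le_left _ _
  have ht0 : (0 : ℝ) ≤ t := Nat.cast_nonneg t
  obtain ⟨C, hC1, hC⟩ := dk_eps (t + 1) η (by positivity)
  obtain ⟨n0, h0⟩ := hPAR κ hκ0 hκ
  obtain ⟨n1, h1⟩ := ev_pow (t + 3) ((t + 2) * C * 4 ^ (t + 1) * 7 * (24 + 12 * 16 * 5)) η (by positivity)
  obtain ⟨n2, h2⟩ := ev_log 1
  refine ⟨n0 + n1 + n2 + 2, fun N hN H hH α => ?_⟩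
  obtain ⟨hY1, hY2, _, hD, hz1, hz2, hz3, hzD, hDN⟩ := h0 N (by omega)
  have a1 := h1 N (by omega)
  have a2 := h2 N (by omega)
  have hN1 : 1 ≤ N := by omega
  have hN0 : (0 : ℝ) < N := by exact_mod_cast hN1
  have hNr : (1 : ℝ) ≤ N := by exact_mod_cast hN1
  obtain ⟨L, hL⟩ : ∃ L, L = Real.log (N : ℝ) := ⟨_, rfl⟩
  rw [← hL] at a1 a2
  unfold fk
  obtain ⟨D, hDd⟩ : ∃ D, D = Dk κ N := ⟨_, rfl⟩
  obtain ⟨Y, hYd⟩ : ∃ Y, Y = Yk κ N := ⟨_, rfl⟩
  obtain ⟨z, hzd⟩ : ∃ z, z = zk κ N := ⟨_, rfl⟩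
  rw [← hDd] at hD hzD hDN
  rw [← hzd] at hz1 hz2 hz3 hzD
  rw [← hDd, ← hYd, ← hzd]
  have hD0 : (0 : ℝ) < D := by exact_mod_cast (by omega : 0 < D)
  have hlD0 : 0 ≤ Real.log D := Real.log_natCast_nonneg D
  have hlD : Real.log D ≤ 2 * L := by
    have h3 : (D : ℝ) ≤ (N : ℝ) ^ 2 := by
      have : (D : ℝ) ≤ 2 * N := by exact_mod_cast hDN
      have h4 : (2 : ℝ) ≤ N := by exact_mod_cast (by omega : 2 ≤ N)
      nlinarith
    have h4 := Real.log_le_log hD0 h3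
    rw [Real.log_pow] at h4
    rw [hL]
    exact_mod_cast h4
  have hKK : ∀ q, 0 ≤ ∑ a ∈ Rd q, KK H (α + (a : ℝ) / q) := fun q => sum_nonneg fun a _ => KK_nonneg (Nat.cast_nonneg _) _
  refine (sup_Y (WE Y t) (WE_nonneg Y t) Y D z H hzD α).trans ?_
  have s1 : ∑ q ∈ Ioc z D, RR (WE Y t) D q * ∑ a ∈ Rd q, KK H (α + (a : ℝ) / q) ≤
      ∑ q ∈ Ioc z D, ((t + 2) * C * (1 + 2 * L) ^ (t + 1)) * ((q : ℝ) ^ (η - 1) * ∑ a ∈ Rd q, KK H (α + (a : ℝ) / q)) := by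
    apply sum_le_sum
    intro q hq
    rw [mem_Ioc] at hq
    have hq1 : 1 ≤ q := by omega
    have hq0 : (0 : ℝ) < q := by exact_mod_cast hq1
    rw [← mul_assoc]
    apply mul_le_mul_of_nonneg_right _ (hKK q)
    refine (RR_le (WE Y t) (t + 2) t D q (WE_le Y t) (by positivity) hq1).trans ?_
    have e1 : (dk (t + 1) q : ℝ) / q ≤ C * (q : ℝ) ^ (η - 1) := by
      rw [div_le_iff₀ hq0]
      refine (hC q hq1).trans (le_of_eq ?_)
      rw [mul_assoc, Real.rpow_sub hq0, Real.rpow_one, div_mul_cancel₀ _ hq0.ne']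
    calc (t + 2) * ((dk (t + 1) q : ℝ) / q) * (1 + Real.log D) ^ (t + 1)
        ≤ (t + 2) * (C * (q : ℝ) ^ (η - 1)) * (1 + 2 * L) ^ (t + 1) := by
          apply mul_le_mul (mul_le_mul_of_nonneg_left e1 (by positivity)) _ (by positivity) (by positivity)
          exact pow_le_pow_left₀ (by linarith) (by linarith) _
      _ = _ := by ring
  refine s1.trans ?_
  rw [← mul_sum]
  have s2 := dyadic D z H hz1 hzD α η (by positivity) (by linarith)
  have f1 : (z : ℝ) ^ (η - 1) ≤ (N : ℝ) ^ (-κ + η) := by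
    have g1 : (z : ℝ) ^ (η - 1) ≤ ((N : ℝ) ^ κ) ^ (η - 1) :=
      Real.rpow_le_rpow_of_nonpos (by positivity) hz2 (by linarith)
    refine g1.trans ?_
    rw [← Real.rpow_mul hN0.le]
    apply Real.rpow_le_rpow_of_exponent_le hNr
    nlinarith
  have f2 : (D : ℝ) ^ (1 + η) ≤ 16 * (N : ℝ) ^ (1 - κ + η) := by
    calc (D : ℝ) ^ (1 + η) ≤ (4 * (N : ℝ) ^ (1 - κ)) ^ (1 + η) := Real.rpow_le_rpow hD0.le hD (by linarith)
      _ = (4 : ℝ) ^ (1 + η) * (N : ℝ) ^ ((1 - κ) * (1 + η)) := by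
          rw [Real.mul_rpow (by norm_num) (by positivity), ← Real.rpow_mul hN0.le]
      _ ≤ 16 * (N : ℝ) ^ (1 - κ + η) := by
          apply mul_le_mul _ _ (by positivity) (by norm_num)
          · calc (4 : ℝ) ^ (1 + η) ≤ (4 : ℝ) ^ (2 : ℝ) := Real.rpow_le_rpow_of_exponent_le (by norm_num) (by linarith)
              _ = 16 := by norm_num
          · apply Real.rpow_le_rpow_of_exponent_le hNr
            nlinarith
  have hNκ : 0 < (N : ℝ) ^ (1 - κ + η) := Real.rpow_pos_of_pos hN0 _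
  have s3 : (1 + 2 * Real.log D) * (12 * H * (z : ℝ) ^ (η - 1) + 12 * (D : ℝ) ^ (1 + η) * (2 + Real.log D)) ≤
      (7 * L) * ((24 + 12 * 16 * 5) * L * (N : ℝ) ^ (1 - κ + η)) := by
    have hHN : (H : ℝ) ≤ 2 * N := by exact_mod_cast hH
    have t1 : 12 * (H : ℝ) * (z : ℝ) ^ (η - 1) ≤ 24 * L * (N : ℝ) ^ (1 - κ + η) := by
      calc 12 * (H : ℝ) * (z : ℝ) ^ (η - 1) ≤ 12 * (2 * N) * (N : ℝ) ^ (-κ + η) := by
            apply mul_le_mul (by linarith) f1 (by positivity) (by positivity)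
        _ = 24 * (N : ℝ) ^ (1 - κ + η) := by
            rw [show 1 - κ + η = 1 + (-κ + η) by ring, Real.rpow_add hN0 1, Real.rpow_one]; ring
        _ ≤ 24 * L * (N : ℝ) ^ (1 - κ + η) := by nlinarith
    have t2 : 12 * (D : ℝ) ^ (1 + η) * (2 + Real.log D) ≤ 12 * 16 * 5 * L * (N : ℝ) ^ (1 - κ + η) := by
      calc 12 * (D : ℝ) ^ (1 + η) * (2 + Real.log D) ≤ 12 * (16 * (N : ℝ) ^ (1 - κ + η)) * (5 * L) := by
            apply mul_le_mul _ (by linarith) (by linarith) (by positivity)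
            exact mul_le_mul_of_nonneg_left f2 (by norm_num)
        _ = _ := by ring
    apply mul_le_mul (by linarith) _ (by positivity) (by positivity)
    linarith
  have hKpos : 0 ≤ ((t : ℝ) + 2) * C * (1 + 2 * L) ^ (t + 1) := by positivity
  refine (mul_le_mul_of_nonneg_left (s2.trans s3) hKpos).trans ?_
  have s4 : ((t : ℝ) + 2) * C * (1 + 2 * L) ^ (t + 1) ≤ (t + 2) * C * (4 ^ (t + 1) * L ^ (t + 1)) := by
    apply mul_le_mul_of_nonneg_left _ (by positivity)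
    rw [← mul_pow]
    exact pow_le_pow_left₀ (by positivity) (by linarith) _
  have s5 : 0 ≤ (7 * L) * ((24 + 12 * 16 * 5) * L * (N : ℝ) ^ (1 - κ + η)) := by positivity
  refine (mul_le_mul_of_nonneg_right s4 s5).trans ?_
  have e2 : ((t : ℝ) + 2) * C * (4 ^ (t + 1) * L ^ (t + 1)) * ((7 * L) * ((24 + 12 * 16 * 5) * L * (N : ℝ) ^ (1 - κ + η))) =
      ((t + 2) * C * 4 ^ (t + 1) * 7 * (24 + 12 * 16 * 5)) * L ^ (t + 3) * (N : ℝ) ^ (1 - κ + η) := by ring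
  rw [e2]
  calc _ ≤ (N : ℝ) ^ η * (N : ℝ) ^ (1 - κ + η) := mul_le_mul_of_nonneg_right a1 hNκ.le
    _ = (N : ℝ) ^ (η + (1 - κ + η)) := by rw [← Real.rpow_add hN0]
    _ ≤ _ := Real.rpow_le_rpow_of_exponent_le hNr (by linarith)

end Pool.Agent.H30.ES.SUP
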