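import Pool.Agent.H30.ES.Stm

/-! # ES-TAIL (helper71) -/

set_option autoImplicit false

namespace Pool.Agent.H30.ES.TAIL

open Finset Polynomial
open Pool.Agent.H807R2.Dav
open Pool.Agent.TH212.DV
open Pool.Agent.TH212.PS

theorem main : S_PAR → S_TAIL := by
  intro hPAR t κ κ' hκ' hκκ hκ2
  obtain ⟨n0, h0⟩ := hPAR κ (lt_of_lt_of_le hκ' hκκ) hκ2
  obtain ⟨ε, hε⟩ : ∃ ε : ℝ, ε = κ' / 16 := ⟨_, rfl⟩
  have hε0 : 0 < ε := by rw [hε]; positivity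
  obtain ⟨Z, hZ, hcz⟩ := cz_avg
  obtain ⟨n1, h1⟩ := pt_ww t ε hε0
  obtain ⟨n2, h2⟩ := pt_dk 2 ε hε0
  obtain ⟨n3, h3⟩ := ev_pow 0 Z ε hε0
  refine ⟨n0 + n1 + n2 + n3 + 2, fun N hN x hx h hh0 hh => ?_⟩
  obtain ⟨-, -, -, -, b5, b6, b7, b8, b9⟩ := h0 N (by omega)
  have a1 := h1 N (by omega)
  have a3 := h3 N (by omega)
  rw [pow_zero, mul_one] at a3
  have hN0 : (0 : ℝ) < N := by exact_mod_cast (by omega : 0 < N)
  have hN1 : (1 : ℝ) ≤ N := by exact_mod_cast (by omega : 1 ≤ N)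
  obtain ⟨H, hH⟩ : ∃ H : ℕ, H = h.natAbs := ⟨_, rfl⟩
  have hH1 : 1 ≤ H := by omega
  have hHN : H ≤ N := by
    have g : ((h.natAbs : ℕ) : ℤ) ≤ N := by rw [Int.natCast_natAbs]; exact hh
    omega
  have hczH : ∀ q, cz q h = cz q (H : ℤ) := fun q => by rw [hH]; exact cz_natAbs q h
  have a2 := h2 N (by omega) H hH1 (by omega)
  have hsgN : sg H ≤ (N : ℝ) ^ ε := (sg_le H).trans a2
  obtain ⟨z, hz⟩ : ∃ z, z = zk κ N := ⟨_, rfl⟩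
  obtain ⟨z', hz'⟩ : ∃ z', z' = zk κ' N := ⟨_, rfl⟩
  have hzz : z' ≤ z := by
    rw [hz, hz']
    exact Nat.ceil_mono (Real.rpow_le_rpow_of_exponent_le hN1 hκκ)
  have hz'N : (N : ℝ) ^ κ' ≤ z' := by rw [hz']; exact Nat.le_ceil _
  have hz'r : (1 : ℝ) ≤ z' := (Real.one_le_rpow hN1 hκ'.le).trans hz'N
  have hz'1 : 1 ≤ z' := by exact_mod_cast hz'r
  rw [← hz, ← hz']
  rw [← hz] at b5 b6 b7 b8
  obtain ⟨Y, hY⟩ : ∃ Y, Y = Yk κ N := ⟨_, rfl⟩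
  obtain ⟨D, hD⟩ : ∃ D, D = Dk κ N := ⟨_, rfl⟩
  rw [← hD] at b8 b9
  have e1 : Mk t κ N z x h - Mk t κ N z' x h = ∑ q ∈ Ioc z' z, (cz q h : ℝ) *
      ∑ n ∈ Icc 1 x, ww (WE Y t) Y D q n * ww (WE Y t) Y D q ((n : ℤ) + h).toNat := by
    unfold Mk Mn
    rw [← hY, ← hD]
    have hu : Icc 1 z = Icc 1 z' ∪ Ioc z' z := by
      ext q
      simp only [mem_union, mem_Icc, mem_Ioc]
      omega
    have hd : Disjoint (Icc 1 z') (Ioc z' z) := by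
      rw [Finset.disjoint_left]
      intro q h1 h2
      rw [mem_Icc] at h1
      rw [mem_Ioc] at h2
      omega
    rw [hu, sum_union hd, add_sub_cancel_left]
  have hNε : 0 ≤ (N : ℝ) ^ ε := by positivity
  have e2 : ∀ q ∈ Ioc z' z, |(cz q h : ℝ) *
      ∑ n ∈ Icc 1 x, ww (WE Y t) Y D q n * ww (WE Y t) Y D q ((n : ℤ) + h).toNat| ≤
      (N : ℝ) * ((N : ℝ) ^ ε) ^ 2 * (z' : ℝ) ^ (-(1 / 2) : ℝ) *
        ((q : ℝ) ^ (-(3 / 2) : ℝ) * |(cz q (H : ℤ) : ℝ)|) := by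
    intro q hq
    rw [mem_Ioc] at hq
    have hq1 : 1 ≤ q := by omega
    have hq0 : (0 : ℝ) < q := by exact_mod_cast hq1
    have hw : ∀ n, ww (WE Y t) Y D q n ≤ (N : ℝ) ^ ε / q := fun n =>
      a1 Y D q n b9 hq1 (by omega)
    have hw0 : ∀ n, 0 ≤ ww (WE Y t) Y D q n := fun n => ww_nonneg _ (WE_nonneg Y t) Y D q n
    have g1 : |∑ n ∈ Icc 1 x, ww (WE Y t) Y D q n * ww (WE Y t) Y D q ((n : ℤ) + h).toNat| ≤
        (N : ℝ) * ((N : ℝ) ^ ε / q) ^ 2 := by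
      rw [abs_of_nonneg (sum_nonneg fun n _ => mul_nonneg (hw0 _) (hw0 _))]
      calc ∑ n ∈ Icc 1 x, ww (WE Y t) Y D q n * ww (WE Y t) Y D q ((n : ℤ) + h).toNat
          ≤ ∑ n ∈ Icc 1 x, ((N : ℝ) ^ ε / q) ^ 2 := by
            apply sum_le_sum
            intro n _
            rw [pow_two]
            exact mul_le_mul (hw _) (hw _) (hw0 _) (by positivity)
        _ = (x : ℝ) * ((N : ℝ) ^ ε / q) ^ 2 := by
            rw [sum_const, Nat.card_Icc, Nat.add_sub_cancel, nsmul_eq_mul]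
        _ ≤ (N : ℝ) * ((N : ℝ) ^ ε / q) ^ 2 := by
            apply mul_le_mul_of_nonneg_right _ (by positivity)
            exact_mod_cast hx
    have g2 : (1 : ℝ) / (q : ℝ) ^ 2 ≤ (z' : ℝ) ^ (-(1 / 2) : ℝ) * (q : ℝ) ^ (-(3 / 2) : ℝ) := by
      have e : (1 : ℝ) / (q : ℝ) ^ 2 = (q : ℝ) ^ (-(1 / 2) : ℝ) * (q : ℝ) ^ (-(3 / 2) : ℝ) := by
        rw [← Real.rpow_add hq0]
        norm_num
      rw [e]
      apply mul_le_mul_of_nonneg_right _ (by positivity)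
      exact Real.rpow_le_rpow_of_nonpos (by linarith) (by exact_mod_cast hq.1.le) (by norm_num)
    rw [abs_mul, hczH]
    calc |(cz q (H : ℤ) : ℝ)| * |∑ n ∈ Icc 1 x, ww (WE Y t) Y D q n * ww (WE Y t) Y D q ((n : ℤ) + h).toNat|
        ≤ |(cz q (H : ℤ) : ℝ)| * ((N : ℝ) * ((N : ℝ) ^ ε / q) ^ 2) :=
          mul_le_mul_of_nonneg_left g1 (abs_nonneg _)
      _ = (N : ℝ) * ((N : ℝ) ^ ε) ^ 2 * |(cz q (H : ℤ) : ℝ)| * (1 / (q : ℝ) ^ 2) := by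
          rw [div_pow]; ring
      _ ≤ (N : ℝ) * ((N : ℝ) ^ ε) ^ 2 * |(cz q (H : ℤ) : ℝ)| *
          ((z' : ℝ) ^ (-(1 / 2) : ℝ) * (q : ℝ) ^ (-(3 / 2) : ℝ)) :=
          mul_le_mul_of_nonneg_left g2 (by positivity)
      _ = _ := by ring
  rw [e1]
  refine (abs_sum_le_sum_abs _ _).trans ((sum_le_sum e2).trans ?_)
  rw [← mul_sum]
  have e3 : ∑ q ∈ Ioc z' z, (q : ℝ) ^ (-(3 / 2) : ℝ) * |(cz q (H : ℤ) : ℝ)| ≤ Z * sg H := by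
    refine le_trans ?_ (hcz H hH1 z)
    apply sum_le_sum_of_subset_of_nonneg
    · intro q hq
      rw [mem_Ioc] at hq
      rw [mem_Icc]
      omega
    · intro q _ _
      positivity
  have e4 : (z' : ℝ) ^ (-(1 / 2) : ℝ) ≤ (N : ℝ) ^ (-(κ' / 2)) := by
    calc (z' : ℝ) ^ (-(1 / 2) : ℝ) ≤ ((N : ℝ) ^ κ') ^ (-(1 / 2) : ℝ) :=
          Real.rpow_le_rpow_of_nonpos (by positivity) hz'N (by norm_num)
      _ = (N : ℝ) ^ (-(κ' / 2)) := by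
          rw [← Real.rpow_mul hN0.le]; congr 1; ring
  have hsg0 := sg_nonneg H
  calc (N : ℝ) * ((N : ℝ) ^ ε) ^ 2 * (z' : ℝ) ^ (-(1 / 2) : ℝ) *
        ∑ q ∈ Ioc z' z, (q : ℝ) ^ (-(3 / 2) : ℝ) * |(cz q (H : ℤ) : ℝ)|
      ≤ (N : ℝ) * ((N : ℝ) ^ ε) ^ 2 * (N : ℝ) ^ (-(κ' / 2)) * ((N : ℝ) ^ ε * (N : ℝ) ^ ε) := by
        apply mul_le_mul
        · exact mul_le_mul_of_nonneg_left e4 (by positivity)
        · exact e3.trans (mul_le_mul a3 hsgN hsg0 hNε)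
        · positivity
        · positivity
    _ = (N : ℝ) ^ (1 : ℝ) * ((N : ℝ) ^ ε * (N : ℝ) ^ ε) * (N : ℝ) ^ (-(κ' / 2)) *
        ((N : ℝ) ^ ε * (N : ℝ) ^ ε) := by rw [Real.rpow_one]; ring
    _ = (N : ℝ) ^ (1 + (ε + ε) + -(κ' / 2) + (ε + ε)) := by
        simp only [← Real.rpow_add hN0]
    _ ≤ (N : ℝ) ^ (1 - κ' / 8) := by
        apply Real.rpow_le_rpow_of_exponent_le hN1
        rw [hε]
        linarith

end Pool.Agent.H30.ES.TAIL
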