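import Pool.Agent.H30.ES.Stm

/-! # ES-TOP: from the weights to the polynomials (helper56, adapted from TH212/PS/P8) -/

set_option autoImplicit false

namespace Pool.Agent.H30.ES.TOP

open Finset Polynomial
open Pool.Agent.H807R2.Dav
open Pool.Agent.TH212.DV
open Pool.Agent.TH212.PS
open Pool.Agent.H30.ES

theorem main : S_PAR → S_TOP := by
  intro hPAR t P hP κ δ₀ hκ0 hκ2 hδ0 hκδ hκh
  obtain ⟨C, A, δ, hC, hA, hδ, hW⟩ := hP.app
  refine ⟨min (δ / (8 * (A + 2))) (δ₀ / 8), by positivity, fun κ' hκ'0 hκ'1 hκ'κ => ?_⟩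
  have hκA' : κ' * (A + 2) ≤ δ / 8 := by
    have hκA := hκ'1.trans (min_le_left _ _)
    rw [le_div_iff₀ (by positivity)] at hκA
    linarith
  have hκ'd : κ' ≤ δ₀ / 8 := hκ'1.trans (min_le_right _ _)
  obtain ⟨ε, hε⟩ : ∃ ε : ℝ, ε = min (δ / 16) (δ₀ / 16) := ⟨_, rfl⟩
  have hε0 : 0 < ε := by rw [hε]; positivity
  have hε1 : ε ≤ δ / 16 := by rw [hε]; exact min_le_left _ _
  have hε2 : ε ≤ δ₀ / 16 := by rw [hε]; exact min_le_right _ _
  obtain ⟨n1, h1⟩ := hPAR κ hκ0 hκ2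
  obtain ⟨n5, h5⟩ := hPAR κ' hκ'0 (hκ'κ.trans hκ2)
  obtain ⟨n2, h2⟩ := G_le t P hP ε hε0
  obtain ⟨n3, h3⟩ := pt_ww t ε hε0
  obtain ⟨n4, h4⟩ := ev_pow 0 (2 ^ (A + 2) * (2 * C * 2 ^ ((t + 2 : ℕ) * δ)) + 32) ε hε0
  refine ⟨ε, hε0, n1 + n2 + n3 + n4 + n5 + 2, fun N hN x hx h hh => ?_⟩
  obtain ⟨hY2, hYN, hYN2, -, -, -, -, -, hD2⟩ := h1 N (by omega)
  obtain ⟨-, -, -, -, hz1, -, hz2, hzD, hzD2⟩ := h5 N (by omega)
  have a2 := h2 N (by omega)
  have a3 := h3 N (by omega)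
  have a4 := h4 N (by omega)
  rw [pow_zero, mul_one] at a4
  have hN0 : (0 : ℝ) < N := by exact_mod_cast (by omega : 0 < N)
  have hN1 : (1 : ℝ) ≤ N := by exact_mod_cast (by omega : 1 ≤ N)
  have hYlt : (N : ℝ) ^ κ ≤ (Yk κ N : ℝ) + 1 := (Nat.lt_floor_add_one _).le
  unfold Mk
  obtain ⟨Y, hYe⟩ : ∃ Y, Y = Yk κ N := ⟨_, rfl⟩
  obtain ⟨D, hDe⟩ : ∃ D, D = Dk κ N := ⟨_, rfl⟩
  obtain ⟨z, hze⟩ : ∃ z, z = zk κ' N := ⟨_, rfl⟩
  have hD : D = 2 * N / Y := by rw [hDe, hYe]; rfl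
  rw [← hYe, ← hDe, ← hze]
  rw [← hYe] at hY2 hYN hYN2 hYlt
  rw [← hDe] at hD2
  rw [← hze] at hz1 hz2 hzD
  have hz2N : z ≤ 2 * N := hzD.trans hzD2
  have hY1 : 1 ≤ Y := by omega
  have hz0 : (0 : ℝ) < z := by exact_mod_cast hz1
  have hhb := abs_le.1 hh
  have hYD : ∀ a n, n ≤ 2 * N → a * Y < n → a ≤ D := by
    intro a n hn ha
    rw [hD, Nat.le_div_iff_mul_le (by omega)]
    omega
  obtain ⟨S, hS⟩ : ∃ S : ℕ, S = 2 * Y ^ (t + 2) := ⟨_, rfl⟩
  obtain ⟨K, hK⟩ : ∃ K : ℝ, K = (N : ℝ) ^ ε := ⟨_, rfl⟩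
  have hK0 : 0 < K := by rw [hK]; positivity
  have hK1 : 1 ≤ K := by rw [hK]; exact Real.one_le_rpow hN1 hε0.le
  -- the bounds for the two functions
  have hw : ∀ q n : ℕ, 1 ≤ q → q ≤ z → 0 ≤ ww (WE Y t) Y D q n ∧ ww (WE Y t) Y D q n ≤ K := by
    intro q n hq hqz
    refine ⟨ww_nonneg _ (WE_nonneg Y t) _ _ _ _, ?_⟩
    rw [hK]
    exact (a3 Y D q n hD2 hq (by omega)).trans (div_le_self (by positivity) (by exact_mod_cast hq))
  have hg : ∀ q n : ℕ, 1 ≤ q → 1 ≤ n → n ≤ 2 * N → |(P q).eval (Real.log n)| ≤ K := by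
    intro q n hq hn hn2
    rw [hK]
    refine (a2 q n hq hn hn2).trans ?_
    have : (q : ℝ) ^ (ε - 1) ≤ 1 := Real.rpow_le_one_of_one_le_of_nonpos (by exact_mod_cast hq) (by linarith)
    exact mul_le_of_le_one_right (by positivity) this
  -- the comparison for large arguments
  have hS2N : 2 * N ≤ (Y + 1) ^ (4 * (t + 2)) := by
    have g1 : N ≤ (Y + 1) ^ (2 * (t + 2)) := by
      have g3 : (N : ℝ) ≤ ((Y : ℝ) + 1) ^ (2 * (t + 2)) := by
        calc (N : ℝ) = (N : ℝ) ^ (1 : ℝ) := (Real.rpow_one _).symm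
          _ ≤ (N : ℝ) ^ (κ * ((2 * (t + 2) : ℕ) : ℝ)) := by
              apply Real.rpow_le_rpow_of_exponent_le hN1
              push_cast
              linarith
          _ = ((N : ℝ) ^ κ) ^ (2 * (t + 2)) := by
              rw [Real.rpow_mul hN0.le, Real.rpow_natCast]
          _ ≤ _ := pow_le_pow_left₀ (by positivity) hYlt _
      exact_mod_cast g3
    have g2 : 2 ≤ (Y + 1) ^ (2 * (t + 2)) := by
      calc 2 ≤ Y + 1 := by omega
        _ ≤ _ := Nat.le_self_pow (by omega) _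
    calc 2 * N ≤ (Y + 1) ^ (2 * (t + 2)) * (Y + 1) ^ (2 * (t + 2)) := Nat.mul_le_mul g2 g1
      _ = _ := by rw [← pow_add]; congr 1; ring
  have hSlow : (N : ℝ) ^ (1 / 2 : ℝ) ≤ 2 ^ (t + 2) * (S : ℝ) := by
    have g1 : (N : ℝ) ^ (1 / 2 : ℝ) ≤ (2 * (Y : ℝ)) ^ (t + 2) := by
      have g2 : (N : ℝ) ^ (1 / 2 : ℝ) ≤ ((N : ℝ) ^ κ) ^ (t + 2) := by
        rw [← Real.rpow_natCast ((N : ℝ) ^ κ), ← Real.rpow_mul hN0.le]
        apply Real.rpow_le_rpow_of_exponent_le hN1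
        push_cast
        linarith
      exact g2.trans (pow_le_pow_left₀ (by positivity) hYN _)
    refine g1.trans ?_
    rw [mul_pow, hS]
    push_cast
    have : (0 : ℝ) ≤ 2 ^ (t + 2) * (Y : ℝ) ^ (t + 2) := by positivity
    nlinarith
  have hSup : (S : ℝ) ≤ 2 * (N : ℝ) ^ (1 - δ₀) := by
    have g2 : (Y : ℝ) ^ (t + 2) ≤ (N : ℝ) ^ (1 - δ₀) := by
      calc (Y : ℝ) ^ (t + 2) ≤ ((N : ℝ) ^ κ) ^ (t + 2) := pow_le_pow_left₀ (by positivity) hYN2 _
        _ = (N : ℝ) ^ (κ * ((t + 2 : ℕ) : ℝ)) := by rw [Real.rpow_mul hN0.le, Real.rpow_natCast]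
        _ ≤ _ := by
            apply Real.rpow_le_rpow_of_exponent_le hN1
            push_cast
            linarith
    rw [hS]
    push_cast
    linarith
  have hS0 : 0 < S := by rw [hS]; positivity
  have hSr0 : (0 : ℝ) < S := by exact_mod_cast hS0
  obtain ⟨e₁, he₁⟩ : ∃ e₁ : ℝ, e₁ = C * (z : ℝ) ^ A * (2 ^ ((t + 2 : ℕ) * δ) * (N : ℝ) ^ (-(δ / 2))) := ⟨_, rfl⟩
  have he₁0 : 0 ≤ e₁ := by rw [he₁]; positivity
  have happ : ∀ q n : ℕ, 1 ≤ q → q ≤ z → S ≤ n → n ≤ 2 * N → |ww (WE Y t) Y D q n - (P q).eval (Real.log n)| ≤ e₁ := by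
    intro q n hq hqz hn hn2
    rw [ww_eq t Y D q n hY1 (fun a ha => hYD a n hn2 ha)]
    refine (hW q Y n hq hY2 (by rw [← hS]; exact hn) (hn2.trans hS2N)).trans ?_
    rw [he₁]
    have g1 : (q : ℝ) ^ A ≤ (z : ℝ) ^ A := Real.rpow_le_rpow (Nat.cast_nonneg _) (by exact_mod_cast hqz) hA
    have g2 : (n : ℝ) ^ (-δ) ≤ 2 ^ ((t + 2 : ℕ) * δ) * (N : ℝ) ^ (-(δ / 2)) := by
      have g3 : (n : ℝ) ^ (-δ) ≤ (S : ℝ) ^ (-δ) := Real.rpow_le_rpow_of_nonpos hSr0 (by exact_mod_cast hn) (by linarith)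
      have g4 : (S : ℝ) ^ (-δ) ≤ ((N : ℝ) ^ (1 / 2 : ℝ) / 2 ^ (t + 2)) ^ (-δ) := by
        apply Real.rpow_le_rpow_of_nonpos (by positivity) _ (by linarith)
        rw [div_le_iff₀ (by positivity)]
        linarith
      refine (g3.trans g4).trans (le_of_eq ?_)
      rw [Real.div_rpow (by positivity) (by positivity), ← Real.rpow_mul hN0.le, ← Real.rpow_natCast 2 (t + 2), ← Real.rpow_mul (by norm_num)]
      rw [div_eq_mul_inv, ← Real.rpow_neg (by norm_num), mul_comm]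
      congr 2
      · ring
      · ring
    exact mul_le_mul (mul_le_mul_of_nonneg_left g1 hC) g2 (by positivity) (by positivity)
  -- the difference for each modulus
  have hq : ∀ q ∈ Icc 1 z, |(cz q h : ℝ) * ∑ n ∈ Icc 1 x, ww (WE Y t) Y D q n * ww (WE Y t) Y D q ((n : ℤ) + h).toNat -
      (cz q h : ℝ) * ∑ n ∈ Icc 1 x, (if 1 ≤ (n : ℤ) + h then
        (P q).eval (Real.log n) * (P q).eval (Real.log (((n : ℤ) + h).toNat : ℕ)) else 0)| ≤
      z * (N * (2 * e₁ * K) + 4 * S * K ^ 2) := by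
    intro q hq
    rw [mem_Icc] at hq
    rw [← mul_sub, abs_mul]
    have hcz : |(cz q h : ℝ)| ≤ z := (abs_cz_le q hq.1 h).trans (by exact_mod_cast hq.2)
    apply mul_le_mul hcz _ (abs_nonneg _) hz0.le
    rw [← sum_sub_distrib]
    refine (abs_sum_le_sum_abs _ _).trans ?_
    have k1 : ∀ n ∈ Icc 1 x, |ww (WE Y t) Y D q n * ww (WE Y t) Y D q ((n : ℤ) + h).toNat -
        (if 1 ≤ (n : ℤ) + h then (P q).eval (Real.log n) * (P q).eval (Real.log (((n : ℤ) + h).toNat : ℕ)) else 0)| ≤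
        2 * e₁ * K + (if n < S then 2 * K ^ 2 else 0) + (if 1 ≤ (n : ℤ) + h ∧ (n : ℤ) + h < S then 2 * K ^ 2 else 0) := by
      intro n hn
      rw [mem_Icc] at hn
      have hnN : n ≤ 2 * N := by omega
      by_cases hc : 1 ≤ (n : ℤ) + h
      · rw [if_pos hc]
        obtain ⟨m, hm⟩ : ∃ m : ℕ, m = ((n : ℤ) + h).toNat := ⟨_, rfl⟩
        have hm1 : 1 ≤ m := by omega
        have hm2 : m ≤ 2 * N := by omega
        have hmz : (m : ℤ) = (n : ℤ) + h := by omega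
        rw [← hm]
        obtain ⟨w1, w2⟩ := hw q n hq.1 hq.2
        obtain ⟨w3, w4⟩ := hw q m hq.1 hq.2
        have g1 := hg q n hq.1 hn.1 hnN
        have g2 := hg q m hq.1 hm1 hm2
        have htriv : |ww (WE Y t) Y D q n * ww (WE Y t) Y D q m - (P q).eval (Real.log n) * (P q).eval (Real.log m)| ≤ 2 * K ^ 2 := by
          refine (abs_sub _ _).trans ?_
          rw [abs_mul, abs_mul, abs_of_nonneg w1, abs_of_nonneg w3]
          have k2 := mul_le_mul w2 w4 w3 hK0.le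
          have k3 := mul_le_mul g1 g2 (abs_nonneg _) hK0.le
          nlinarith
        by_cases c1 : n < S
        · rw [if_pos c1]
          have : 0 ≤ (if 1 ≤ (n : ℤ) + h ∧ (n : ℤ) + h < S then 2 * K ^ 2 else 0) := by split_ifs <;> positivity
          have k4 : 0 ≤ 2 * e₁ * K := by positivity
          linarith
        · by_cases c2 : 1 ≤ (n : ℤ) + h ∧ (n : ℤ) + h < S
          · rw [if_pos c2, if_neg c1]
            have k4 : 0 ≤ 2 * e₁ * K := by positivity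
            linarith
          · rw [if_neg c1, if_neg c2, add_zero, add_zero]
            have k5 := happ q n hq.1 hq.2 (by omega) hnN
            have k6 := happ q m hq.1 hq.2 (by
              by_contra hcc
              apply c2
              omega) hm2
            have e3 : ww (WE Y t) Y D q n * ww (WE Y t) Y D q m - (P q).eval (Real.log n) * (P q).eval (Real.log m) =
                (ww (WE Y t) Y D q n - (P q).eval (Real.log n)) * ww (WE Y t) Y D q m +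
                (P q).eval (Real.log n) * (ww (WE Y t) Y D q m - (P q).eval (Real.log m)) := by ring
            rw [e3]
            refine (abs_add_le _ _).trans ?_
            rw [abs_mul, abs_mul, abs_of_nonneg w3]
            have k7 := mul_le_mul k5 w4 w3 he₁0
            have k8 := mul_le_mul g1 k6 (abs_nonneg _) hK0.le
            nlinarith
      · rw [if_neg hc, sub_zero, Int.toNat_of_nonpos (by omega), ww_zero, mul_zero, abs_zero]
        have k1 : 0 ≤ (if n < S then 2 * K ^ 2 else 0) := by split_ifs <;> positivity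
        have k2 : 0 ≤ (if 1 ≤ (n : ℤ) + h ∧ (n : ℤ) + h < S then 2 * K ^ 2 else 0) := by split_ifs <;> positivity
        have k4 : 0 ≤ 2 * e₁ * K := by positivity
        linarith
    refine (sum_le_sum k1).trans ?_
    rw [sum_add_distrib, sum_add_distrib, sum_const, Nat.card_Icc, nsmul_eq_mul, Nat.add_sub_cancel, ← sum_filter, ← sum_filter,
      sum_const, sum_const, nsmul_eq_mul, nsmul_eq_mul]
    have c1 : (((Icc 1 x).filter (fun n => n < S)).card : ℝ) ≤ S := by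
      have : ((Icc 1 x).filter (fun n => n < S)).card ≤ (range S).card := card_le_card (by
        intro n hn
        rw [mem_filter] at hn
        exact mem_range.2 hn.2)
      rw [card_range] at this
      exact_mod_cast this
    have c2 : (((Icc 1 x).filter (fun n : ℕ => 1 ≤ (n : ℤ) + h ∧ (n : ℤ) + h < S)).card : ℝ) ≤ S := by
      have : ((Icc 1 x).filter (fun n : ℕ => 1 ≤ (n : ℤ) + h ∧ (n : ℤ) + h < S)).card ≤ (range S).card := by
        apply card_le_card_of_injOn (fun n : ℕ => ((n : ℤ) + h).toNat)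
        · intro n hn
          rw [mem_coe, mem_filter] at hn
          rw [mem_coe, mem_range]
          show ((n : ℤ) + h).toNat < S
          omega
        · intro a ha b hb hab
          rw [mem_coe, mem_filter] at ha hb
          simp only at hab
          omega
      rw [card_range] at this
      exact_mod_cast this
    have hxr : (x : ℝ) ≤ N := by exact_mod_cast hx
    have d1 : (x : ℝ) * (2 * e₁ * K) ≤ N * (2 * e₁ * K) := mul_le_mul_of_nonneg_right hxr (by positivity)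
    have d2 := mul_le_mul_of_nonneg_right c1 (by positivity : 0 ≤ 2 * K ^ 2)
    have d3 := mul_le_mul_of_nonneg_right c2 (by positivity : 0 ≤ 2 * K ^ 2)
    linarith
  unfold Mn Mp
  rw [← sum_sub_distrib]
  refine (abs_sum_le_sum_abs _ _).trans ((sum_le_sum hq).trans ?_)
  rw [sum_const, Nat.card_Icc, nsmul_eq_mul, Nat.add_sub_cancel]
  -- the final estimate
  have f1 : (z : ℝ) ^ 2 * (N * (2 * e₁ * K)) ≤ (2 ^ (A + 2) * (2 * C * 2 ^ ((t + 2 : ℕ) * δ))) * (N : ℝ) ^ (1 - 3 * ε) := by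
    have g1 : (z : ℝ) ^ 2 * (z : ℝ) ^ A ≤ 2 ^ (A + 2) * (N : ℝ) ^ (δ / 8) := by
      calc (z : ℝ) ^ 2 * (z : ℝ) ^ A = (z : ℝ) ^ (A + 2) := by
            rw [Real.rpow_add hz0, mul_comm]
            norm_num
        _ ≤ (2 * (N : ℝ) ^ κ') ^ (A + 2) := Real.rpow_le_rpow hz0.le hz2 (by positivity)
        _ = 2 ^ (A + 2) * (N : ℝ) ^ (κ' * (A + 2)) := by rw [Real.mul_rpow (by norm_num) (by positivity), ← Real.rpow_mul hN0.le]
        _ ≤ _ := by
            apply mul_le_mul_of_nonneg_left _ (by positivity)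
            exact Real.rpow_le_rpow_of_exponent_le hN1 hκA'
    have g2 : (N : ℝ) ^ (δ / 8) * (N * (N : ℝ) ^ (-(δ / 2)) * K) ≤ (N : ℝ) ^ (1 - 3 * ε) := by
      rw [hK]
      calc (N : ℝ) ^ (δ / 8) * (N * (N : ℝ) ^ (-(δ / 2)) * (N : ℝ) ^ ε) =
            (N : ℝ) ^ (δ / 8) * ((N : ℝ) ^ (1 : ℝ) * (N : ℝ) ^ (-(δ / 2)) * (N : ℝ) ^ ε) := by rw [Real.rpow_one]
        _ = (N : ℝ) ^ (δ / 8 + (1 + -(δ / 2) + ε)) := by
            rw [← Real.rpow_add hN0, ← Real.rpow_add hN0, ← Real.rpow_add hN0]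
        _ ≤ _ := Real.rpow_le_rpow_of_exponent_le hN1 (by linarith)
    calc (z : ℝ) ^ 2 * (N * (2 * e₁ * K)) = (2 * C * 2 ^ ((t + 2 : ℕ) * δ)) * (((z : ℝ) ^ 2 * (z : ℝ) ^ A) * (N * (N : ℝ) ^ (-(δ / 2)) * K)) := by
          rw [he₁]; ring
      _ ≤ (2 * C * 2 ^ ((t + 2 : ℕ) * δ)) * ((2 ^ (A + 2) * (N : ℝ) ^ (δ / 8)) * (N * (N : ℝ) ^ (-(δ / 2)) * K)) := by
          apply mul_le_mul_of_nonneg_left _ (by positivity)
          exact mul_le_mul_of_nonneg_right g1 (by positivity)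
      _ = (2 ^ (A + 2) * (2 * C * 2 ^ ((t + 2 : ℕ) * δ))) * ((N : ℝ) ^ (δ / 8) * (N * (N : ℝ) ^ (-(δ / 2)) * K)) := by ring
      _ ≤ _ := mul_le_mul_of_nonneg_left g2 (by positivity)
  have f2 : (z : ℝ) ^ 2 * (4 * S * K ^ 2) ≤ 32 * (N : ℝ) ^ (1 - 3 * ε) := by
    have g1 : (z : ℝ) ^ 2 ≤ 4 * (N : ℝ) ^ (2 * κ') := by
      calc (z : ℝ) ^ 2 ≤ (2 * (N : ℝ) ^ κ') ^ 2 := pow_le_pow_left₀ hz0.le hz2 2
        _ = 4 * ((N : ℝ) ^ κ' * (N : ℝ) ^ κ') := by ring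
        _ = _ := by rw [← Real.rpow_add hN0]; congr 2; ring
    calc (z : ℝ) ^ 2 * (4 * S * K ^ 2) ≤ (4 * (N : ℝ) ^ (2 * κ')) * (4 * (2 * (N : ℝ) ^ (1 - δ₀)) * K ^ 2) := by
          apply mul_le_mul g1 _ (by positivity) (by positivity)
          apply mul_le_mul_of_nonneg_right _ (by positivity)
          linarith
      _ = 32 * ((N : ℝ) ^ (2 * κ') * (N : ℝ) ^ (1 - δ₀) * (K * K)) := by ring
      _ = 32 * (N : ℝ) ^ (2 * κ' + (1 - δ₀) + (ε + ε)) := by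
          rw [hK, ← Real.rpow_add hN0, ← Real.rpow_add hN0, ← Real.rpow_add hN0]
      _ ≤ _ := by
          apply mul_le_mul_of_nonneg_left _ (by norm_num)
          exact Real.rpow_le_rpow_of_exponent_le hN1 (by linarith)
  calc (z : ℝ) * (z * (N * (2 * e₁ * K) + 4 * S * K ^ 2)) = (z : ℝ) ^ 2 * (N * (2 * e₁ * K)) + (z : ℝ) ^ 2 * (4 * S * K ^ 2) := by ring
    _ ≤ (2 ^ (A + 2) * (2 * C * 2 ^ ((t + 2 : ℕ) * δ)) + 32) * (N : ℝ) ^ (1 - 3 * ε) := by linarith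
    _ ≤ K * (N : ℝ) ^ (1 - 3 * ε) := by
        apply mul_le_mul_of_nonneg_right _ (by positivity)
        rw [hK]
        exact a4
    _ = (N : ℝ) ^ (ε + (1 - 3 * ε)) := by rw [hK, ← Real.rpow_add hN0]
    _ ≤ _ := Real.rpow_le_rpow_of_exponent_le hN1 (by linarith)


end Pool.Agent.H30.ES.TOP
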