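import Pool.Agent.H30.ES.PAR
import Pool.Agent.H30.ES.SUP
import Pool.Agent.H30.ES.CORR
import Pool.Agent.H30.ES.DEC
import Pool.Agent.H30.ES.KEY
import Pool.Agent.H30.ES.MAINY
import Pool.Agent.H30.ES.TAIL
import Pool.Agent.H30.ES.TOP
import Pool.Agent.H30.ES.FIN

set_option autoImplicit false

/-! Project ES: the assembly. -/

namespace Pool.Agent.H30.ES

theorem main : S_FIN :=
  FIN.main PAR.main (MAINY.main PAR.main (SUP.main PAR.main) (DEC.main CORR.main) KEY.main) (TAIL.main PAR.main)
    (TOP.main PAR.main)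

end Pool.Agent.H30.ES
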