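import Pool.Agent.H30.ES.Stm

/-! Project ES: the parameters (stub PAR) -/

set_option autoImplicit false

namespace Pool.Agent.H30.ES.PAR

open Filter

theorem main : S_PAR := by
  intro κ hκ hκ2
  have h0 : Tendsto (fun N : ℕ => (N : ℝ) ^ κ) atTop atTop :=
    (tendsto_rpow_atTop hκ).comp tendsto_natCast_atTop_atTop
  obtain ⟨N₀, hN₀⟩ := eventually_atTop.1 (h0.eventually_ge_atTop 2)
  refine ⟨N₀ + 1, fun N hN => ?_⟩
  have hz : (2 : ℝ) ≤ (N : ℝ) ^ κ := hN₀ N (by omega)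
  have hN1 : (1 : ℝ) ≤ N := by exact_mod_cast (by omega : 1 ≤ N)
  have hN0 : (0 : ℝ) < N := by linarith
  obtain ⟨q, hq⟩ : ∃ q : ℝ, q = (N : ℝ) ^ κ := ⟨_, rfl⟩
  have hY : Yk κ N = ⌊q⌋₊ := by unfold Yk; rw [hq]
  have hZ : zk κ N = ⌈q⌉₊ := by unfold zk; rw [hq]
  rw [← hq] at hz ⊢
  have hq0 : 0 ≤ q := by linarith
  have c1 : 2 ≤ Yk κ N := by
    rw [hY]
    exact Nat.le_floor (by exact_mod_cast hz)
  have c1r : (2 : ℝ) ≤ Yk κ N := by exact_mod_cast c1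
  have c2 : q ≤ 2 * (Yk κ N : ℝ) := by
    have h1 : q < (⌊q⌋₊ : ℝ) + 1 := Nat.lt_floor_add_one q
    rw [← hY] at h1
    linarith
  have c3 : (Yk κ N : ℝ) ≤ q := by
    rw [hY]
    exact Nat.floor_le hq0
  have c6 : q ≤ zk κ N := by
    rw [hZ]
    exact Nat.le_ceil q
  have c7 : (zk κ N : ℝ) ≤ 2 * q := by
    have h1 : (⌈q⌉₊ : ℝ) < q + 1 := Nat.ceil_lt_add_one hq0
    rw [← hZ] at h1
    linarith
  have c5 : 1 ≤ zk κ N := by
    have h1 : (1 : ℝ) ≤ zk κ N := by linarith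
    exact_mod_cast h1
  have e1 : (N : ℝ) ^ (1 - κ) = N / q := by
    rw [hq, Real.rpow_sub hN0, Real.rpow_one]
  have c4 : (Dk κ N : ℝ) ≤ 4 * (N : ℝ) ^ (1 - κ) := by
    unfold Dk
    have h3 : ((2 * N / Yk κ N : ℕ) : ℝ) ≤ ((2 * N : ℕ) : ℝ) / Yk κ N := Nat.cast_div_le
    refine h3.trans ?_
    rw [e1, div_le_iff₀ (by linarith), mul_comm (4 * _), ← mul_div_assoc, ← mul_div_assoc,
      le_div_iff₀ (by linarith)]
    push_cast
    nlinarith [mul_le_mul_of_nonneg_left c2 hN0.le]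
  have c8 : zk κ N ≤ Dk κ N := by
    unfold Dk
    rw [Nat.le_div_iff_mul_le (by omega)]
    have hqq : q * q ≤ N := by
      rw [hq, ← Real.rpow_add hN0]
      calc (N : ℝ) ^ (κ + κ) ≤ (N : ℝ) ^ (1 : ℝ) :=
            Real.rpow_le_rpow_of_exponent_le hN1 (by linarith)
        _ = N := Real.rpow_one _
    have h3 : (zk κ N : ℝ) * Yk κ N ≤ 2 * N := by
      calc (zk κ N : ℝ) * Yk κ N ≤ (2 * q) * q :=
            mul_le_mul c7 c3 (by positivity) (by positivity)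
        _ = 2 * (q * q) := by ring
        _ ≤ 2 * N := by linarith
    exact_mod_cast h3
  exact ⟨c1, c2, c3, c4, c5, c6, c7, c8, Nat.div_le_self _ _⟩

end Pool.Agent.H30.ES.PAR
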