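import Pool.Agent.H30.ES.POLY

/-! Project ES: the values of a polynomial, short ranges. -/

set_option autoImplicit false

namespace Pool.Agent.H30.ES.POLR

open Finset Polynomial
open Pool.Agent.TH212.PS
open Pool.Agent.TH212.DV
open Pool.Agent.TH212.PL (En moment)
open Pool.Agent.H373R2.T7 (energy)

theorem energy_pos (f : ℤ[X]) (hd : 1 ≤ f.natDegree) (hl : 0 < f.leadingCoeff) :
    ∃ p : ℕ, 1 ≤ p ∧ ∃ C : ℝ, 0 < C ∧ ∀ x : ℕ, 1 ≤ x →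
      (energy p x (fun m => f.eval (m : ℤ)) : ℝ) * (x : ℝ) ^ f.natDegree ≤ C * (x : ℝ) ^ (2 * p) := by
  obtain ⟨p, hp1, C, hC, hmom⟩ := moment f hd hl 1 le_rfl
  refine ⟨p, hp1, C, hC, fun x hx => ?_⟩
  have hx0 : (0 : ℝ) < x := by exact_mod_cast hx
  have h1 := hmom 1 (Or.inl rfl) x (x ^ f.natDegree) hx (Nat.one_le_pow _ _ hx) (by rw [one_mul])
  have h2 := Pool.Agent.TH212.PL.energy_le p x (fun m => f.eval (m : ℤ)) (x ^ f.natDegree) (Nat.one_le_pow _ _ hx)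
  simp only [one_mul] at h1
  have h3 : ∀ u : ℕ → ℝ, ∑ t ∈ range (x ^ f.natDegree), (u t / x) ^ (2 * p) = (∑ t ∈ range (x ^ f.natDegree), u t ^ (2 * p)) / (x : ℝ) ^ (2 * p) := by
    intro u
    rw [sum_div]
    exact sum_congr rfl fun t _ => div_pow _ _ _
  rw [h3, div_le_iff₀ (by positivity)] at h1
  have h4 := h2.trans h1
  push_cast at h4 ⊢
  linarith

theorem energy_poly1 (f : ℤ[X]) (hd : 1 ≤ f.natDegree) :
    ∃ p : ℕ, 1 ≤ p ∧ ∃ C : ℝ, 0 < C ∧ ∀ x : ℕ, 1 ≤ x →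
      (energy p x (fun m => f.eval (m : ℤ)) : ℝ) * (x : ℝ) ^ f.natDegree ≤ C * (x : ℝ) ^ (2 * p) := by
  rcases lt_trichotomy f.leadingCoeff 0 with h | h | h
  · obtain ⟨p, hp, C, hC, hE⟩ := energy_pos (-f) (by rwa [natDegree_neg]) (by rw [leadingCoeff_neg]; omega)
    refine ⟨p, hp, C, hC, fun x hx => ?_⟩
    have := hE x hx
    rw [natDegree_neg] at this
    have e : energy p x (fun m => (-f).eval (m : ℤ)) = energy p x (fun m => f.eval (m : ℤ)) := by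
      unfold energy
      congr 1
      apply filter_congr
      intro q _
      simp only [eval_neg, sum_neg_distrib, neg_inj]
    rw [e] at this
    exact this
  · rw [leadingCoeff_eq_zero] at h
    subst h
    simp at hd
  · exact energy_pos f hd h

theorem En_sub (f : ℤ[X]) (p M : ℕ) (c : ℤ) (E : Finset ℕ) (hE : E ⊆ Icc 1 M) :
    En p (fun i : E => c + f.eval (((i : ℕ) : ℕ) : ℤ)) ≤ energy p M (fun m => f.eval (m : ℤ)) := by
  classical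
  unfold energy En
  rw [Nat.card_eq_fintype_card, Fintype.card_subtype]
  apply card_le_card_of_injOn (fun q => (fun j => ((q.1 j : E) : ℕ), fun j => ((q.2 j : E) : ℕ)))
  · intro q hq
    rw [mem_coe, mem_filter] at hq
    rw [mem_coe, mem_filter, mem_product, Fintype.mem_piFinset, Fintype.mem_piFinset]
    refine ⟨⟨fun j => hE (q.1 j).2, fun j => hE (q.2 j).2⟩, ?_⟩
    have h1 := hq.2
    simp only [sum_add_distrib] at h1
    exact add_left_cancel h1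
  · intro q _ q' _ h2
    simp only [Prod.mk.injEq] at h2
    apply Prod.ext
    · funext j
      exact Subtype.ext (congrFun h2.1 j)
    · funext j
      exact Subtype.ext (congrFun h2.2 j)

open Classical in
/-- **short ranges of polynomial values** -/
theorem short (t : ℕ) (P : ℕ → ℝ[X]) (ht : 1 ≤ t) (hP : HW t P) (f : ℤ[X]) (hf : 1 ≤ f.natDegree) (ε : ℝ) (hε : 0 < ε) :
    ∃ θ : ℝ, 0 < θ ∧ ∀ η : ℝ, 0 < η → η ≤ θ → ∃ N₀ : ℕ, ∀ N : ℕ, N₀ ≤ N → ∀ M : ℕ,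
      (N : ℝ) ^ (1 - 2 / ((t : ℝ) + 2) + ε) ≤ (M : ℝ) ^ f.natDegree → ∀ c : ℤ,
      (((Icc 1 M).filter (fun m : ℕ => c + f.eval (m : ℤ) ≠ 0 ∧ |c + f.eval (m : ℤ)| ≤ (N : ℤ) ∧
        ¬ GoodP t N P θ η (c + f.eval (m : ℤ)))).card : ℝ) ≤ (N : ℝ) ^ (-θ) * M := by
  obtain ⟨p, hp1, C, hC, hEn⟩ := energy_poly1 f hf
  have hpr : (1 : ℝ) ≤ p := by exact_mod_cast hp1
  obtain ⟨θ₁, hθ₁, _, h1⟩ := main t P ht hP p (ε / 2) hp1 (by positivity)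
  obtain ⟨θ, hθ⟩ : ∃ θ : ℝ, θ = min θ₁ (ε / (8 * p)) := ⟨_, rfl⟩
  have hθ0 : 0 < θ := by rw [hθ]; positivity
  have hθa : θ ≤ θ₁ := by rw [hθ]; exact min_le_left _ _
  have hθb : θ ≤ ε / (8 * p) := by rw [hθ]; exact min_le_right _ _
  refine ⟨θ, hθ0, fun η hη hηθ => ?_⟩
  obtain ⟨n1, h2⟩ := h1 η hη (hηθ.trans hθa)
  have h3 : ∀ᶠ N : ℕ in Filter.atTop, C ≤ (N : ℝ) ^ (ε / 4) :=
    ((tendsto_rpow_atTop (by positivity : (0 : ℝ) < ε / 4)).comp tendsto_natCast_atTop_atTop).eventually_ge_atTop _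
  obtain ⟨n2, h3⟩ := Filter.eventually_atTop.1 h3
  refine ⟨n1 + n2 + 1, fun N hN M hM c => ?_⟩
  have hN0 : (0 : ℝ) < N := by exact_mod_cast (by omega : 0 < N)
  have hN1 : (1 : ℝ) ≤ N := by exact_mod_cast (by omega : 1 ≤ N)
  have hCN := h3 N (by omega)
  have hpos : 0 < (N : ℝ) ^ (1 - 2 / ((t : ℝ) + 2) + ε) := Real.rpow_pos_of_pos hN0 _
  have hMk : (0 : ℝ) < (M : ℝ) ^ f.natDegree := hpos.trans_le hM
  have hM1 : 1 ≤ M := by
    rcases Nat.eq_zero_or_pos M with h | h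
    · rw [h, Nat.cast_zero, zero_pow (by omega)] at hMk
      exact absurd hMk (lt_irrefl _)
    · exact h
  have hM0 : (0 : ℝ) < M := by exact_mod_cast hM1
  obtain ⟨E, hE⟩ : ∃ E : Finset ℕ, E = (Icc 1 M).filter (fun m : ℕ => c + f.eval (m : ℤ) ≠ 0 ∧ |c + f.eval (m : ℤ)| ≤ (N : ℤ) ∧
        ¬ GoodP t N P θ η (c + f.eval (m : ℤ))) := ⟨_, rfl⟩
  rw [← hE]
  have hEs : E ⊆ Icc 1 M := by rw [hE]; exact filter_subset _ _
  have hmem : ∀ m ∈ E, c + f.eval (m : ℤ) ≠ 0 ∧ |c + f.eval (m : ℤ)| ≤ (N : ℤ) ∧ ¬ GoodP t N P θ η (c + f.eval (m : ℤ)) := by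
    intro m hm
    rw [hE, mem_filter] at hm
    exact hm.2
  have key := h2 N (by omega) E (fun m => c + f.eval (((m : ℕ) : ℕ) : ℤ)) (fun i => ⟨(hmem i i.2).1, (hmem i i.2).2.1⟩)
    (fun i hg => (hmem i i.2).2.2 (GoodP_mono t N P θ₁ θ η _ (by omega) hθa hg))
  rw [Fintype.card_coe] at key
  have hsub : (En p (fun i : E => c + f.eval (((i : ℕ) : ℕ) : ℤ)) : ℝ) ≤ energy p M (fun m => f.eval (m : ℤ)) := by
    exact_mod_cast En_sub f p M c E hEs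
  have hen := hEn M hM1
  have hA : (0 : ℝ) < (N : ℝ) ^ (1 - 2 / ((t : ℝ) + 2) + ε / 2) := Real.rpow_pos_of_pos hN0 _
  -- the main inequality times `M ^ k`
  have e1 : (E.card : ℝ) ^ (2 * p) * (M : ℝ) ^ f.natDegree ≤
      (N : ℝ) ^ (1 - 2 / ((t : ℝ) + 2) + ε / 2) * (C * (M : ℝ) ^ (2 * p)) := by
    calc (E.card : ℝ) ^ (2 * p) * (M : ℝ) ^ f.natDegree
        ≤ ((N : ℝ) ^ (1 - 2 / ((t : ℝ) + 2) + ε / 2) * energy p M (fun m => f.eval (m : ℤ))) * (M : ℝ) ^ f.natDegree :=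
          mul_le_mul_of_nonneg_right (key.trans (mul_le_mul_of_nonneg_left hsub hA.le)) hMk.le
      _ = (N : ℝ) ^ (1 - 2 / ((t : ℝ) + 2) + ε / 2) * (energy p M (fun m => f.eval (m : ℤ)) * (M : ℝ) ^ f.natDegree) := by ring
      _ ≤ _ := mul_le_mul_of_nonneg_left hen hA.le
  have e2 : (E.card : ℝ) ^ (2 * p) * (N : ℝ) ^ (1 - 2 / ((t : ℝ) + 2) + ε) ≤
      (N : ℝ) ^ (1 - 2 / ((t : ℝ) + 2) + ε / 2) * (C * (M : ℝ) ^ (2 * p)) :=
    (mul_le_mul_of_nonneg_left hM (by positivity)).trans e1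
  have e3 : (N : ℝ) ^ (1 - 2 / ((t : ℝ) + 2) + ε / 2) * (C * (M : ℝ) ^ (2 * p)) ≤
      ((N : ℝ) ^ (-(ε / 4)) * (M : ℝ) ^ (2 * p)) * (N : ℝ) ^ (1 - 2 / ((t : ℝ) + 2) + ε) := by
    calc (N : ℝ) ^ (1 - 2 / ((t : ℝ) + 2) + ε / 2) * (C * (M : ℝ) ^ (2 * p))
        ≤ (N : ℝ) ^ (1 - 2 / ((t : ℝ) + 2) + ε / 2) * ((N : ℝ) ^ (ε / 4) * (M : ℝ) ^ (2 * p)) := by gcongr
      _ = ((N : ℝ) ^ (1 - 2 / ((t : ℝ) + 2) + ε / 2) * (N : ℝ) ^ (ε / 4)) * (M : ℝ) ^ (2 * p) := by ring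
      _ = ((N : ℝ) ^ (-(ε / 4)) * (N : ℝ) ^ (1 - 2 / ((t : ℝ) + 2) + ε)) * (M : ℝ) ^ (2 * p) := by
          rw [← Real.rpow_add hN0, ← Real.rpow_add hN0]
          congr 2
          ring
      _ = _ := by ring
  have e4 : (E.card : ℝ) ^ (2 * p) ≤ (N : ℝ) ^ (-(ε / 4)) * (M : ℝ) ^ (2 * p) :=
    le_of_mul_le_mul_right (e2.trans e3) hpos
  have e5 : (N : ℝ) ^ (-(ε / 4)) * (M : ℝ) ^ (2 * p) = ((N : ℝ) ^ (-(ε / (8 * p))) * M) ^ (2 * p) := by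
    rw [mul_pow, ← Real.rpow_natCast ((N : ℝ) ^ (-(ε / (8 * p)))), ← Real.rpow_mul hN0.le]
    congr 2
    push_cast
    field_simp
    ring
  rw [e5] at e4
  have e6 : (E.card : ℝ) ≤ (N : ℝ) ^ (-(ε / (8 * p))) * M :=
    le_of_pow_le_pow_left₀ (by omega) (by positivity) e4
  refine e6.trans ?_
  apply mul_le_mul_of_nonneg_right _ hM0.le
  exact Real.rpow_le_rpow_of_exponent_le hN1 (by linarith)

end Pool.Agent.H30.ES.POLR
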