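import Pool.Agent.H30.ES.Stm2

/-!
# ES-POW (helper29): the energy of `k`-th powers
-/

set_option autoImplicit false

namespace Pool.Agent.H30.ES.POW

open Finset
open Pool.Agent.TH212.PL (En)

theorem f_strict {x x' e : ℤ} (hx : 0 ≤ x) (h : x < x') (he : 0 < e) {k : ℕ} (hk : 2 ≤ k) :
    (x + e) ^ k - x ^ k < (x' + e) ^ k - x' ^ k := by
  induction k, hk using Nat.le_induction with
  | base => nlinarith
  | succ k hk ih =>
    have h1 : (x + e) ^ (k + 1) - x ^ (k + 1) = (x + e) * ((x + e) ^ k - x ^ k) + e * x ^ k := by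
      ring
    have h2 : (x' + e) ^ (k + 1) - x' ^ (k + 1) =
        (x' + e) * ((x' + e) ^ k - x' ^ k) + e * x' ^ k := by ring
    rw [h1, h2]
    have h3 : x ^ k ≤ x' ^ k := pow_le_pow_left₀ hx h.le k
    have h4 : 0 ≤ (x + e) ^ k - x ^ k := sub_nonneg.2 (pow_le_pow_left₀ hx (by linarith) k)
    have h5 : (x + e) * ((x + e) ^ k - x ^ k) < (x' + e) * ((x' + e) ^ k - x' ^ k) := by
      calc (x + e) * ((x + e) ^ k - x ^ k) < (x + e) * ((x' + e) ^ k - x' ^ k) :=
            mul_lt_mul_of_pos_left ih (by linarith)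
        _ ≤ (x' + e) * ((x' + e) ^ k - x' ^ k) :=
            mul_le_mul_of_nonneg_right (by linarith) (by linarith)
    have h6 : e * x ^ k ≤ e * x' ^ k := mul_le_mul_of_nonneg_left h3 he.le
    linarith

/-- the pairs with a given positive difference of the `k`-th powers -/
theorem pair_eq {x y x' y' : ℕ} {k : ℕ} (hk : 2 ≤ k) {D : ℤ} (hD : 0 < D)
    (h1 : (y : ℤ) ^ k - (x : ℤ) ^ k = D) (h2 : (y' : ℤ) ^ k - (x' : ℤ) ^ k = D)
    (h3 : ((y : ℤ) - x).natAbs = ((y' : ℤ) - x').natAbs) : x = x' ∧ y = y' := by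
  have hlt : ∀ {a b : ℕ}, (b : ℤ) ^ k - (a : ℤ) ^ k = D → (a : ℤ) < b := by
    intro a b h
    have h4 : (a : ℤ) ^ k < (b : ℤ) ^ k := by linarith
    exact lt_of_pow_lt_pow_left₀ k (Int.natCast_nonneg b) h4
  have h5 := hlt h1
  have h6 := hlt h2
  have h7 : (y : ℤ) - x = y' - x' := by omega
  obtain ⟨e, he⟩ : ∃ e : ℤ, e = (y : ℤ) - x := ⟨_, rfl⟩
  have he0 : 0 < e := by omega
  have hy : (y : ℤ) = x + e := by omega
  have hy' : (y' : ℤ) = x' + e := by omega
  rw [hy] at h1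
  rw [hy'] at h2
  have hx : (x : ℤ) = x' := by
    rcases lt_trichotomy (x : ℤ) x' with h | h | h
    · have := f_strict (Int.natCast_nonneg x) h he0 hk
      linarith
    · exact h
    · have := f_strict (Int.natCast_nonneg x') h he0 hk
      linarith
  constructor
  · exact_mod_cast hx
  · have : (y : ℤ) = y' := by omega
    exact_mod_cast this

theorem card_pairs {ι : Type} [Fintype ι] [DecidableEq ι] {m : ι → ℕ} (hm : Function.Injective m)
    {k : ℕ} (hk : 2 ≤ k) {D : ℤ} (hD : D ≠ 0) :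
    ((univ : Finset (ι × ι)).filter (fun q => (m q.2 : ℤ) ^ k - (m q.1 : ℤ) ^ k = D)).card ≤
      D.natAbs.divisors.card := by
  refine card_le_card_of_injOn (fun q => ((m q.2 : ℤ) - m q.1).natAbs) ?_ ?_
  · intro q hq
    have h1 := (mem_filter.1 (mem_coe.1 hq)).2
    refine mem_coe.2 (Nat.mem_divisors.2 ⟨?_, Int.natAbs_ne_zero.2 hD⟩)
    rw [← h1]
    exact Int.natAbs_dvd_natAbs.2 (sub_dvd_pow_sub_pow _ _ k)
  · intro q hq q' hq' h
    have h1 := (mem_filter.1 (mem_coe.1 hq)).2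
    have h2 := (mem_filter.1 (mem_coe.1 hq')).2
    have h' : ((m q.2 : ℤ) - m q.1).natAbs = ((m q'.2 : ℤ) - m q'.1).natAbs := h
    rcases lt_or_gt_of_ne hD with h0 | h0
    · obtain ⟨h3, h4⟩ := pair_eq (x := m q.2) (y := m q.1) (x' := m q'.2) (y' := m q'.1)
        (D := -D) hk (by linarith) (by linarith) (by linarith) (by
          rw [← Int.natAbs_neg, neg_sub, h', ← Int.natAbs_neg, neg_sub])
      exact Prod.ext (hm h4) (hm h3)
    · obtain ⟨h3, h4⟩ := pair_eq (x := m q.1) (y := m q.2) (x' := m q'.1) (y' := m q'.2)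
        hk h0 h1 h2 h'
      exact Prod.ext (hm h3) (hm h4)

theorem card_diag {ι : Type} [Fintype ι] [DecidableEq ι] {m : ι → ℕ} (hm : Function.Injective m)
    {k : ℕ} (hk : 2 ≤ k) :
    ((univ : Finset (ι × ι)).filter (fun q => (m q.2 : ℤ) ^ k - (m q.1 : ℤ) ^ k = 0)).card ≤
      Fintype.card ι := by
  rw [← card_univ]
  refine card_le_card_of_injOn (fun q => q.1) (fun q _ => mem_coe.2 (mem_univ _)) ?_
  have key : ∀ q ∈ (univ : Finset (ι × ι)).filter
      (fun q => (m q.2 : ℤ) ^ k - (m q.1 : ℤ) ^ k = 0), q.2 = q.1 := by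
    intro q hq
    have h1 := (mem_filter.1 hq).2
    have h2 : (m q.2) ^ k = (m q.1) ^ k := by
      have : (m q.2 : ℤ) ^ k = (m q.1 : ℤ) ^ k := by linarith
      exact_mod_cast this
    exact hm (Nat.pow_left_injective (by omega : k ≠ 0) h2)
  intro q hq q' hq' h
  have h1 := key q (mem_coe.1 hq)
  have h2 := key q' (mem_coe.1 hq')
  have h' : q.1 = q'.1 := h
  exact Prod.ext h' (by rw [h1, h2, h'])

theorem energy_le {ι : Type} [Fintype ι] [DecidableEq ι] {m : ι → ℕ} (hm : Function.Injective m)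
    {k : ℕ} (hk : 2 ≤ k) (c : ℤ) {X : ℝ} (hX : 0 ≤ X)
    (hτ : ∀ i j, i ≠ j → ((((m i : ℤ) ^ k - (m j : ℤ) ^ k).natAbs.divisors.card : ℕ) : ℝ) ≤ X) :
    (En 2 (fun i => c + (m i : ℤ) ^ k) : ℝ) ≤ (1 + X) * (Fintype.card ι : ℝ) ^ 2 := by
  classical
  have e1 : En 2 (fun i => c + (m i : ℤ) ^ k) =
      ((univ : Finset ((Fin 2 → ι) × (Fin 2 → ι))).filter (fun q =>
        ∑ j, (c + (m (q.1 j) : ℤ) ^ k) = ∑ j, (c + (m (q.2 j) : ℤ) ^ k))).card := by
    unfold En
    rw [Nat.card_eq_fintype_card, Fintype.card_subtype]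
  have e2 := card_eq_sum_card_fiberwise
    (s := (univ : Finset ((Fin 2 → ι) × (Fin 2 → ι))).filter (fun q =>
        ∑ j, (c + (m (q.1 j) : ℤ) ^ k) = ∑ j, (c + (m (q.2 j) : ℤ) ^ k)))
    (f := fun q => (q.1 0, q.2 0)) (t := (univ : Finset (ι × ι))) (fun q _ => mem_coe.2 (mem_univ _))
  rw [e1, e2]
  push_cast
  have e3 : ∀ p ∈ (univ : Finset (ι × ι)),
      ((((univ : Finset ((Fin 2 → ι) × (Fin 2 → ι))).filter (fun q =>
        ∑ j, (c + (m (q.1 j) : ℤ) ^ k) = ∑ j, (c + (m (q.2 j) : ℤ) ^ k))).filter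
          (fun q => (q.1 0, q.2 0) = p)).card : ℝ) ≤
        (if p.1 = p.2 then (Fintype.card ι : ℝ) else 0) + X := by
    intro p _
    have e4 : (((univ : Finset ((Fin 2 → ι) × (Fin 2 → ι))).filter (fun q =>
        ∑ j, (c + (m (q.1 j) : ℤ) ^ k) = ∑ j, (c + (m (q.2 j) : ℤ) ^ k))).filter
          (fun q => (q.1 0, q.2 0) = p)).card ≤
        ((univ : Finset (ι × ι)).filter (fun q => (m q.2 : ℤ) ^ k - (m q.1 : ℤ) ^ k =
          (m p.1 : ℤ) ^ k - (m p.2 : ℤ) ^ k)).card := by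
      refine card_le_card_of_injOn (fun q => (q.1 1, q.2 1)) ?_ ?_
      · intro q hq
        obtain ⟨h1, h2⟩ := mem_filter.1 (mem_coe.1 hq)
        have h3 := (mem_filter.1 h1).2
        rw [Fin.sum_univ_two, Fin.sum_univ_two] at h3
        refine mem_coe.2 (mem_filter.2 ⟨mem_univ _, ?_⟩)
        rw [← h2]
        show (m (q.2 1) : ℤ) ^ k - (m (q.1 1) : ℤ) ^ k = (m (q.1 0) : ℤ) ^ k - (m (q.2 0) : ℤ) ^ k
        linarith
      · intro q hq q' hq' h
        have h2 := (mem_filter.1 (mem_coe.1 hq)).2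
        have h3 := (mem_filter.1 (mem_coe.1 hq')).2
        have h4 : (q.1 0, q.2 0) = (q'.1 0, q'.2 0) := h2.trans h3.symm
        have h5 : (q.1 1, q.2 1) = (q'.1 1, q'.2 1) := h
        rw [Prod.mk.injEq] at h4 h5
        refine Prod.ext (funext fun i => ?_) (funext fun i => ?_)
        · fin_cases i
          · exact h4.1
          · exact h5.1
        · fin_cases i
          · exact h4.2
          · exact h5.2
    by_cases hp : p.1 = p.2
    · rw [if_pos hp]
      have e5 : (m p.1 : ℤ) ^ k - (m p.2 : ℤ) ^ k = 0 := by rw [hp, sub_self]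
      rw [e5] at e4
      have e6 := e4.trans (card_diag hm hk)
      have e7 : ((((univ : Finset ((Fin 2 → ι) × (Fin 2 → ι))).filter (fun q =>
        ∑ j, (c + (m (q.1 j) : ℤ) ^ k) = ∑ j, (c + (m (q.2 j) : ℤ) ^ k))).filter
          (fun q => (q.1 0, q.2 0) = p)).card : ℝ) ≤ Fintype.card ι := by exact_mod_cast e6
      linarith
    · rw [if_neg hp, zero_add]
      have e5 : (m p.1 : ℤ) ^ k - (m p.2 : ℤ) ^ k ≠ 0 := by
        intro h0
        apply hp
        have h2 : (m p.1) ^ k = (m p.2) ^ k := by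
          have : (m p.1 : ℤ) ^ k = (m p.2 : ℤ) ^ k := by linarith
          exact_mod_cast this
        exact hm (Nat.pow_left_injective (by omega : k ≠ 0) h2)
      have e6 := e4.trans (card_pairs hm hk e5)
      exact le_trans (by exact_mod_cast e6) (hτ p.1 p.2 hp)
  refine (sum_le_sum e3).trans ?_
  rw [sum_add_distrib, sum_const, card_univ, Fintype.card_prod, nsmul_eq_mul]
  have e8 : ∑ p : ι × ι, (if p.1 = p.2 then (Fintype.card ι : ℝ) else 0) =
      (Fintype.card ι : ℝ) * Fintype.card ι := by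
    rw [Fintype.sum_prod_type]
    simp
  rw [e8]
  push_cast
  nlinarith

theorem main : S_POW := by
  intro k ε hk hε
  obtain ⟨n1, h1⟩ := Pool.Agent.TH212.PS.pt_dk 2 (ε / 2) (by positivity)
  have h2 : ∀ᶠ N : ℕ in Filter.atTop, (2 : ℝ) ≤ (N : ℝ) ^ (ε / 2) :=
    ((tendsto_rpow_atTop (by positivity : (0 : ℝ) < ε / 2)).comp
      tendsto_natCast_atTop_atTop).eventually_ge_atTop _
  obtain ⟨n2, h2⟩ := Filter.eventually_atTop.1 h2
  refine ⟨max n1 (max n2 1), fun N hN ι _ m hm hb c => ?_⟩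
  classical
  have c1 := (le_max_left _ _).trans hN
  have c2 := ((le_max_left _ _).trans (le_max_right _ _)).trans hN
  have c3 := ((le_max_right _ _).trans (le_max_right _ _)).trans hN
  have hx := h2 N c2
  have hN0 : (0 : ℝ) < N := by exact_mod_cast c3
  have key := energy_le hm hk c (X := (N : ℝ) ^ (ε / 2)) (by linarith) (by
    intro i j hij
    have h3 := hb i j
    have h4 : ((m i : ℤ) ^ k - (m j : ℤ) ^ k) ≠ 0 := by
      intro h0
      apply hij
      have h2 : (m i) ^ k = (m j) ^ k := by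
        have : (m i : ℤ) ^ k = (m j : ℤ) ^ k := by linarith
        exact_mod_cast this
      exact hm (Nat.pow_left_injective (by omega : k ≠ 0) h2)
    rw [← Pool.Agent.TH212.PS.tau_dk]
    refine h1 N c1 _ (Int.natAbs_pos.2 h4) ?_
    have h5 : ((((m i : ℤ) ^ k - (m j : ℤ) ^ k).natAbs : ℕ) : ℤ) ≤ 2 * N := by
      rw [Int.natCast_natAbs]
      exact h3
    exact_mod_cast h5)
  refine key.trans ?_
  refine mul_le_mul_of_nonneg_right ?_ (by positivity)
  have h6 : (N : ℝ) ^ ε = (N : ℝ) ^ (ε / 2) * (N : ℝ) ^ (ε / 2) := by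
    rw [← Real.rpow_add hN0]
    congr 1
    ring
  rw [h6]
  nlinarith

end Pool.Agent.H30.ES.POW
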