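import Pool.Agent.H30.ES.CONV
import Pool.Agent.H30.ES.POW
import Pool.Agent.H30.L.R_seed8.TH212.PL.L1

/-! Project ES: the values of polynomials. -/

set_option autoImplicit false

namespace Pool.Agent.H30.ES.POLY

open Finset Polynomial
open Pool.Agent.TH212.PS
open Pool.Agent.TH212.DV
open Pool.Agent.TH212.PL (En)

/-- a polynomial of degree at least 1 takes a value at most `deg` times -/
theorem card_value (f : ℤ[X]) (hf : 1 ≤ f.natDegree) (c : ℤ) (S : Finset ℤ) (hS : ∀ x ∈ S, f.eval x = c) :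
    S.card ≤ f.natDegree := by
  have hd : (f - C c).natDegree = f.natDegree := natDegree_sub_C
  have h0 : f - C c ≠ 0 := by
    intro h
    rw [h, natDegree_zero] at hd
    omega
  have h1 : S ⊆ (f - C c).roots.toFinset := by
    intro x hx
    rw [Multiset.mem_toFinset, mem_roots h0, IsRoot.def, eval_sub, eval_C, hS x hx, sub_self]
  calc S.card ≤ (f - C c).roots.toFinset.card := card_le_card h1
    _ ≤ Multiset.card (f - C c).roots := Multiset.toFinset_card_le _
    _ ≤ (f - C c).natDegree := card_roots' _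
    _ = _ := hd

/-- the differences `f (x + e) - f x` take a value at most `deg` times -/
theorem card_diff (f : ℤ[X]) (hf : 2 ≤ f.natDegree) (e D : ℤ) (he : e ≠ 0) (S : Finset ℤ)
    (hS : ∀ x ∈ S, f.eval (x + e) - f.eval x = D) : S.card ≤ f.natDegree := by
  obtain ⟨g, hg⟩ : ∃ g : ℤ[X], g = f.comp (X + C e) - f - C D := ⟨_, rfl⟩
  have hev : ∀ x : ℤ, g.eval x = f.eval (x + e) - f.eval x - D := by
    intro x
    rw [hg]
    simp
  have hX : (X + C e : ℤ[X]).natDegree = 1 := natDegree_X_add_C e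
  have hcomp : (f.comp (X + C e)).natDegree = f.natDegree := by rw [natDegree_comp, hX, mul_one]
  have hgd : g.natDegree ≤ f.natDegree := by
    rw [hg, natDegree_sub_C]
    refine (natDegree_sub_le _ _).trans ?_
    rw [hcomp, max_self]
  have h0 : g ≠ 0 := by
    intro h
    have h1 : ∀ x : ℤ, f.eval (x + e) = f.eval x + D := by
      intro x
      have := hev x
      rw [h, eval_zero] at this
      linarith
    have h2 : ∀ n : ℕ, f.eval ((n : ℤ) * e) = f.eval 0 + n * D := by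
      intro n
      induction n with
      | zero => simp
      | succ n ih =>
        have : ((n + 1 : ℕ) : ℤ) * e = n * e + e := by push_cast; ring
        rw [this, h1, ih]
        push_cast
        ring
    have h3 : f.comp (C e * X) = C (f.eval 0) + C D * X := by
      apply Polynomial.eq_of_infinite_eval_eq
      refine (Set.infinite_range_of_injective (Nat.cast_injective : Function.Injective (Nat.cast : ℕ → ℤ))).mono ?_
      rintro _ ⟨n, rfl⟩
      have h4 := h2 n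
      show (f.comp (C e * X)).eval (n : ℤ) = (C (f.eval 0) + C D * X).eval (n : ℤ)
      simp only [eval_comp, eval_mul, eval_C, eval_X, eval_add]
      rw [mul_comm e, h4]
      ring
    have h5 : (f.comp (C e * X)).natDegree = f.natDegree := by
      rw [natDegree_comp, natDegree_C_mul_X e he, mul_one]
    have h6 : (C (f.eval 0) + C D * X : ℤ[X]).natDegree ≤ 1 := by
      refine (natDegree_add_le _ _).trans (max_le ?_ ?_)
      · rw [natDegree_C]
        exact Nat.zero_le _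
      · exact (natDegree_C_mul_le _ _).trans natDegree_X_le
    rw [← h3, h5] at h6
    omega
  have h1 : S ⊆ g.roots.toFinset := by
    intro x hx
    rw [Multiset.mem_toFinset, mem_roots h0, IsRoot.def, hev, hS x hx, sub_self]
  calc S.card ≤ g.roots.toFinset.card := card_le_card h1
    _ ≤ Multiset.card g.roots := Multiset.toFinset_card_le _
    _ ≤ g.natDegree := card_roots' _
    _ ≤ _ := hgd

/-- the pairs with a given difference `D ≠ 0` of the values -/
theorem card_pairs (f : ℤ[X]) (hf : 2 ≤ f.natDegree) (S : Finset ℤ) (D : ℤ) (hD : D ≠ 0) :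
    ((S ×ˢ S).filter (fun q => f.eval q.2 - f.eval q.1 = D)).card ≤ 2 * D.natAbs.divisors.card * f.natDegree := by
  classical
  obtain ⟨T, hT⟩ : ∃ T : Finset ℤ, T = D.natAbs.divisors.image (fun n : ℕ => (n : ℤ)) ∪ D.natAbs.divisors.image (fun n : ℕ => -(n : ℤ)) :=
    ⟨_, rfl⟩
  have hTc : T.card ≤ 2 * D.natAbs.divisors.card := by
    rw [hT]
    refine (card_union_le _ _).trans ?_
    have a := card_image_le (s := D.natAbs.divisors) (f := fun n : ℕ => (n : ℤ))
    have b := card_image_le (s := D.natAbs.divisors) (f := fun n : ℕ => -(n : ℤ))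
    omega
  have hmaps : ∀ q ∈ (S ×ˢ S).filter (fun q => f.eval q.2 - f.eval q.1 = D), q.2 - q.1 ∈ T := by
    intro q hq
    have h1 := (mem_filter.1 hq).2
    have h2 : q.2 - q.1 ∣ D := by
      rw [← h1]
      exact sub_dvd_eval_sub _ _ _
    have h3 : (q.2 - q.1).natAbs ∈ D.natAbs.divisors :=
      Nat.mem_divisors.2 ⟨Int.natAbs_dvd_natAbs.2 h2, Int.natAbs_ne_zero.2 hD⟩
    rw [hT, mem_union, mem_image, mem_image]
    rcases Int.natAbs_eq (q.2 - q.1) with h | h
    · exact Or.inl ⟨_, h3, h.symm⟩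
    · exact Or.inr ⟨_, h3, h.symm⟩
  refine (card_le_mul_card_image_of_maps_to hmaps f.natDegree ?_).trans ?_
  · intro e he
    have hinj : (((S ×ˢ S).filter (fun q => f.eval q.2 - f.eval q.1 = D)).filter (fun q => q.2 - q.1 = e)).card =
        ((((S ×ˢ S).filter (fun q => f.eval q.2 - f.eval q.1 = D)).filter (fun q => q.2 - q.1 = e)).image Prod.fst).card := by
      rw [card_image_of_injOn]
      intro q hq q' hq' h
      have h1 := (mem_filter.1 (mem_coe.1 hq)).2
      have h2 := (mem_filter.1 (mem_coe.1 hq')).2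
      have h' : q.1 = q'.1 := h
      exact Prod.ext h' (by linarith)
    rw [hinj]
    by_cases he0 : e = 0
    · have hemp : ((((S ×ˢ S).filter (fun q => f.eval q.2 - f.eval q.1 = D)).filter (fun q => q.2 - q.1 = e)).image Prod.fst) = ∅ := by
        rw [image_eq_empty, filter_eq_empty_iff]
        intro q hq h
        have h1 := (mem_filter.1 hq).2
        have h2 : q.2 = q.1 := by linarith
        rw [h2, sub_self] at h1
        exact hD h1.symm
      rw [hemp, card_empty]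
      exact Nat.zero_le _
    · apply card_diff f hf e D he0
      intro x hx
      obtain ⟨q, hq, rfl⟩ := mem_image.1 hx
      obtain ⟨h1, h2⟩ := mem_filter.1 hq
      have h3 := (mem_filter.1 h1).2
      have h4 : q.1 + e = q.2 := by linarith
      rw [h4]
      exact h3
  · rw [mul_comm]
    exact Nat.mul_le_mul_right _ hTc

theorem card_diag (f : ℤ[X]) (hf : 2 ≤ f.natDegree) (S : Finset ℤ) :
    ((S ×ˢ S).filter (fun q => f.eval q.2 - f.eval q.1 = 0)).card ≤ f.natDegree * S.card := by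
  classical
  refine (card_le_mul_card_image_of_maps_to (f := Prod.fst) (t := S) (fun q hq => (mem_product.1 (mem_filter.1 hq).1).1) f.natDegree ?_)
  intro e he
  have hinj : (((S ×ˢ S).filter (fun q => f.eval q.2 - f.eval q.1 = 0)).filter (fun q => q.1 = e)).card =
      ((((S ×ˢ S).filter (fun q => f.eval q.2 - f.eval q.1 = 0)).filter (fun q => q.1 = e)).image Prod.snd).card := by
    rw [card_image_of_injOn]
    intro q hq q' hq' h
    have h1 := (mem_filter.1 (mem_coe.1 hq)).2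
    have h2 := (mem_filter.1 (mem_coe.1 hq')).2
    have h' : q.2 = q'.2 := h
    exact Prod.ext (h1.trans h2.symm) h'
  rw [hinj]
  apply card_value f (by omega) (f.eval e)
  intro x hx
  obtain ⟨q, hq, rfl⟩ := mem_image.1 hx
  obtain ⟨h1, h2⟩ := mem_filter.1 hq
  have h3 := (mem_filter.1 h1).2
  rw [← h2]
  linarith

/-- the energy of order 2 of the values -/
theorem energy_le (f : ℤ[X]) (hf : 2 ≤ f.natDegree) (S : Finset ℤ) {Y : ℝ} (hY : 0 ≤ Y)
    (hτ : ∀ i ∈ S, ∀ j ∈ S, f.eval i ≠ f.eval j → ((((f.eval i - f.eval j).natAbs.divisors.card : ℕ) : ℝ) ≤ Y)) :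
    (En 2 (fun i : S => f.eval (i : ℤ)) : ℝ) ≤
      ((f.natDegree : ℝ) ^ 2 + 2 * f.natDegree * Y) * (S.card : ℝ) ^ 2 := by
  classical
  obtain ⟨A, hA⟩ : ∃ A : Finset ((ℤ × ℤ) × (ℤ × ℤ)), A = (((S ×ˢ S) ×ˢ (S ×ˢ S)).filter (fun w =>
    f.eval w.2.2 - f.eval w.2.1 = f.eval w.1.1 - f.eval w.1.2)) := ⟨_, rfl⟩
  have e1 : En 2 (fun i : S => f.eval (i : ℤ)) ≤ A.card := by
    unfold En
    rw [Nat.card_eq_fintype_card, Fintype.card_subtype]
    refine card_le_card_of_injOn (fun q => ((((q.1 0 : S) : ℤ), ((q.2 0 : S) : ℤ)), (((q.1 1 : S) : ℤ), ((q.2 1 : S) : ℤ)))) ?_ ?_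
    · intro q hq
      have h1 := (mem_filter.1 (mem_coe.1 hq)).2
      rw [Fin.sum_univ_two, Fin.sum_univ_two] at h1
      rw [hA, mem_coe, mem_filter, mem_product, mem_product, mem_product]
      refine ⟨⟨⟨(q.1 0).2, (q.2 0).2⟩, (q.1 1).2, (q.2 1).2⟩, ?_⟩
      show f.eval ((q.2 1 : S) : ℤ) - f.eval ((q.1 1 : S) : ℤ) = f.eval ((q.1 0 : S) : ℤ) - f.eval ((q.2 0 : S) : ℤ)
      linarith
    · intro q _ q' _ h
      simp only [Prod.mk.injEq] at h
      obtain ⟨⟨h1, h2⟩, h3, h4⟩ := h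
      refine Prod.ext (funext fun i => ?_) (funext fun i => ?_)
      · fin_cases i
        · exact Subtype.ext h1
        · exact Subtype.ext h3
      · fin_cases i
        · exact Subtype.ext h2
        · exact Subtype.ext h4
  have e2 := card_eq_sum_card_fiberwise (s := A) (f := (Prod.fst : (ℤ × ℤ) × (ℤ × ℤ) → ℤ × ℤ)) (t := S ×ˢ S) (fun w hw => by
    rw [hA] at hw
    exact mem_coe.2 (mem_product.1 (mem_filter.1 (mem_coe.1 hw)).1).1)
  have e3 : ∀ p ∈ S ×ˢ S, ((A.filter (fun w => w.1 = p)).card : ℝ) ≤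
      (if f.eval p.2 - f.eval p.1 = 0 then (f.natDegree : ℝ) * S.card else 0) + 2 * f.natDegree * Y := by
    intro p hp
    have e4 : (A.filter (fun w => w.1 = p)).card ≤
        ((S ×ˢ S).filter (fun q => f.eval q.2 - f.eval q.1 = f.eval p.1 - f.eval p.2)).card := by
      refine card_le_card_of_injOn Prod.snd ?_ ?_
      · intro w hw
        obtain ⟨h1, h2⟩ := mem_filter.1 (mem_coe.1 hw)
        rw [hA] at h1
        obtain ⟨h3, h4⟩ := mem_filter.1 h1
        rw [← h2]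
        exact mem_coe.2 (mem_filter.2 ⟨(mem_product.1 h3).2, h4⟩)
      · intro w hw w' hw' h
        have h1 := (mem_filter.1 (mem_coe.1 hw)).2
        have h2 := (mem_filter.1 (mem_coe.1 hw')).2
        exact Prod.ext (h1.trans h2.symm) h
    have hYd : 0 ≤ 2 * (f.natDegree : ℝ) * Y := by positivity
    by_cases h0 : f.eval p.2 - f.eval p.1 = 0
    · rw [if_pos h0]
      have h1 : f.eval p.1 - f.eval p.2 = 0 := by linarith
      rw [h1] at e4
      have e5 : ((A.filter (fun w => w.1 = p)).card : ℝ) ≤ (f.natDegree : ℝ) * S.card := by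
        exact_mod_cast e4.trans (card_diag f hf S)
      linarith
    · rw [if_neg h0, zero_add]
      have h1 : f.eval p.1 - f.eval p.2 ≠ 0 := fun h => h0 (by linarith)
      have e5 := e4.trans (card_pairs f hf S _ h1)
      have h2 := hτ p.1 (mem_product.1 hp).1 p.2 (mem_product.1 hp).2 (fun h => h1 (by rw [h, sub_self]))
      have e6 : ((A.filter (fun w => w.1 = p)).card : ℝ) ≤
          2 * (((f.eval p.1 - f.eval p.2).natAbs.divisors.card : ℕ) : ℝ) * f.natDegree := by exact_mod_cast e5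
      refine e6.trans ?_
      have hk0 : (0 : ℝ) ≤ f.natDegree := Nat.cast_nonneg _
      nlinarith
  have e7 : (A.card : ℝ) ≤ ∑ p ∈ S ×ˢ S, ((if f.eval p.2 - f.eval p.1 = 0 then (f.natDegree : ℝ) * S.card else 0) +
      2 * f.natDegree * Y) := by
    rw [e2]
    push_cast
    exact sum_le_sum e3
  rw [sum_add_distrib, sum_const, card_product, nsmul_eq_mul, ← sum_filter, sum_const, nsmul_eq_mul] at e7
  have e8 : ((((S ×ˢ S).filter (fun p => f.eval p.2 - f.eval p.1 = 0)).card : ℕ) : ℝ) ≤ (f.natDegree : ℝ) * S.card := by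
    exact_mod_cast card_diag f hf S
  have e9 : (0 : ℝ) ≤ (f.natDegree : ℝ) * S.card := by positivity
  have e10 : (En 2 (fun i : S => f.eval (i : ℤ)) : ℝ) ≤ A.card := by exact_mod_cast e1
  push_cast at e7
  nlinarith

/-- **uniformly in all polynomials of degree `k`** -/
theorem unif (t : ℕ) (P : ℕ → ℝ[X]) (ht : 1 ≤ t) (hP : HW t P) (k : ℕ) (hk : 2 ≤ k) (ε : ℝ) (hε : 0 < ε) :
    ∃ θ : ℝ, 0 < θ ∧ ∀ η : ℝ, 0 < η → η ≤ θ → ∃ N₀ : ℕ, ∀ N : ℕ, N₀ ≤ N → ∀ f : ℤ[X], f.natDegree = k →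
      ∀ S : Finset ℤ, (∀ m ∈ S, f.eval m ≠ 0 ∧ |f.eval m| ≤ (N : ℤ) ∧ ¬ GoodP t N P θ η (f.eval m)) →
        (S.card : ℝ) ≤ (N : ℝ) ^ (1 / 2 - 1 / ((t : ℝ) + 2) + ε) := by
  obtain ⟨θ, hθ, _, h1⟩ := main t P ht hP 2 (ε / 2) (by norm_num) (by positivity)
  refine ⟨θ, hθ, fun η hη hηθ => ?_⟩
  obtain ⟨n1, h2⟩ := h1 η hη hηθ
  obtain ⟨n2, h3⟩ := pt_dk 2 (ε / 2) (by positivity)
  have h4 : ∀ᶠ N : ℕ in Filter.atTop, (k : ℝ) ^ 2 + 2 * k ≤ (N : ℝ) ^ ε :=
    ((tendsto_rpow_atTop hε).comp tendsto_natCast_atTop_atTop).eventually_ge_atTop _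
  obtain ⟨n3, h4⟩ := Filter.eventually_atTop.1 h4
  refine ⟨n1 + n2 + n3 + 1, fun N hN f hfk S hS => ?_⟩
  have hN0 : (0 : ℝ) < N := by exact_mod_cast (by omega : 0 < N)
  have hN1 : (1 : ℝ) ≤ N := by exact_mod_cast (by omega : 1 ≤ N)
  have key := h2 N (by omega) S (fun m => f.eval (m : ℤ)) (fun i => ⟨(hS i i.2).1, (hS i i.2).2.1⟩)
    (fun i hg => (hS i i.2).2.2 hg)
  have key2 := energy_le f (by omega) S (Y := (N : ℝ) ^ (ε / 2)) (by positivity) (by
    intro i hi j hj hij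
    rw [← tau_dk]
    refine h3 N (by omega) _ (Int.natAbs_pos.2 (sub_ne_zero.2 hij)) ?_
    have g1 := abs_le.1 (hS i hi).2.1
    have g2 := abs_le.1 (hS j hj).2.1
    have h5 : (((f.eval i - f.eval j).natAbs : ℕ) : ℤ) ≤ 2 * N := by
      rw [Int.natCast_natAbs, abs_le]
      constructor <;> linarith [g1.1, g1.2, g2.1, g2.2]
    exact_mod_cast h5)
  rw [Fintype.card_coe] at key
  rw [hfk] at key2
  have hx := h4 N (by omega)
  have h5 : (N : ℝ) ^ (ε / 2) ≥ 1 := Real.one_le_rpow hN1 (by positivity)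
  have h6 : (k : ℝ) ^ 2 + 2 * k * (N : ℝ) ^ (ε / 2) ≤ (N : ℝ) ^ ε * (N : ℝ) ^ (ε / 2) := by
    have : (0 : ℝ) ≤ (k : ℝ) ^ 2 := by positivity
    calc (k : ℝ) ^ 2 + 2 * k * (N : ℝ) ^ (ε / 2) ≤ ((k : ℝ) ^ 2 + 2 * k) * (N : ℝ) ^ (ε / 2) := by nlinarith
      _ ≤ _ := mul_le_mul_of_nonneg_right hx (by linarith)
  rcases Nat.eq_zero_or_pos S.card with h0 | h0
  · rw [h0]
    push_cast
    exact Real.rpow_nonneg (Nat.cast_nonneg _) _
  have h0' : (0 : ℝ) < S.card := by exact_mod_cast h0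
  have e1 : (S.card : ℝ) ^ 2 * (S.card : ℝ) ^ 2 ≤ ((N : ℝ) ^ (1 - 2 / ((t : ℝ) + 2) + ε / 2) * ((N : ℝ) ^ ε * (N : ℝ) ^ (ε / 2))) *
      (S.card : ℝ) ^ 2 := by
    calc (S.card : ℝ) ^ 2 * (S.card : ℝ) ^ 2 = (S.card : ℝ) ^ (2 * 2) := by ring
      _ ≤ _ := key
      _ ≤ (N : ℝ) ^ (1 - 2 / ((t : ℝ) + 2) + ε / 2) * (((k : ℝ) ^ 2 + 2 * k * (N : ℝ) ^ (ε / 2)) * (S.card : ℝ) ^ 2) :=
          mul_le_mul_of_nonneg_left key2 (Real.rpow_nonneg (Nat.cast_nonneg _) _)
      _ ≤ (N : ℝ) ^ (1 - 2 / ((t : ℝ) + 2) + ε / 2) * (((N : ℝ) ^ ε * (N : ℝ) ^ (ε / 2)) * (S.card : ℝ) ^ 2) := by gcongr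
      _ = _ := by ring
  have e2 := le_of_mul_le_mul_right e1 (by positivity : (0 : ℝ) < (S.card : ℝ) ^ 2)
  have e3 : (N : ℝ) ^ (1 - 2 / ((t : ℝ) + 2) + ε / 2) * ((N : ℝ) ^ ε * (N : ℝ) ^ (ε / 2)) =
      ((N : ℝ) ^ (1 / 2 - 1 / ((t : ℝ) + 2) + ε)) ^ 2 := by
    rw [← Real.rpow_add hN0, ← Real.rpow_add hN0, ← Real.rpow_natCast ((N : ℝ) ^ (1 / 2 - 1 / ((t : ℝ) + 2) + ε)),
      ← Real.rpow_mul hN0.le]
    congr 1
    push_cast
    ring
  rw [e3] at e2
  exact le_of_pow_le_pow_left₀ (by norm_num) (Real.rpow_nonneg (Nat.cast_nonneg _) _) e2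

end Pool.Agent.H30.ES.POLY
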