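import Pool.Agent.H30.L.R_seed8.TH212.PS.P13
import Pool.Agent.H30.L.R_seed8.TH212.PS.P12

/-!
# Project ES: the exceptional shifts of the additive divisor problem (statements of the stubs)
-/

set_option autoImplicit false

namespace Pool.Agent.H30.ES

open Finset Polynomial
open Pool.Agent.H807R2.Dav
open Pool.Agent.TH212.DV
open Pool.Agent.TH212.PS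
open Pool.Agent.TH212.PL (En)

/-- the cut-off `Y` -/
noncomputable def Yk (κ : ℝ) (N : ℕ) : ℕ := ⌊(N : ℝ) ^ κ⌋₊

/-- the number of moduli -/
noncomputable def zk (κ : ℝ) (N : ℕ) : ℕ := ⌈(N : ℝ) ^ κ⌉₊

/-- the largest small divisor -/
noncomputable def Dk (κ : ℝ) (N : ℕ) : ℕ := 2 * N / Yk κ N

/-- the error term of the approximation of the divisor function by the model -/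
noncomputable def fk (t : ℕ) (κ : ℝ) (N n : ℕ) : ℝ :=
  FY (WE (Yk κ N) t) (Yk κ N) (Dk κ N) n - MY (WE (Yk κ N) t) (Yk κ N) (Dk κ N) (zk κ N) n

/-- the main term with `z` moduli -/
noncomputable def Mk (t : ℕ) (κ : ℝ) (N z x : ℕ) (h : ℤ) : ℝ := Mn (WE (Yk κ N) t) (Yk κ N) (Dk κ N) z x h

def S_PAR : Prop := ∀ κ : ℝ, 0 < κ → κ ≤ 1 / 2 → ∃ N₀ : ℕ, ∀ N : ℕ, N₀ ≤ N →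
  2 ≤ Yk κ N ∧ (N : ℝ) ^ κ ≤ 2 * (Yk κ N : ℝ) ∧ (Yk κ N : ℝ) ≤ (N : ℝ) ^ κ ∧ (Dk κ N : ℝ) ≤ 4 * (N : ℝ) ^ (1 - κ) ∧
  1 ≤ zk κ N ∧ (N : ℝ) ^ κ ≤ zk κ N ∧ (zk κ N : ℝ) ≤ 2 * (N : ℝ) ^ κ ∧ zk κ N ≤ Dk κ N ∧ Dk κ N ≤ 2 * N

def S_SUP : Prop := ∀ (t : ℕ) (κ ε : ℝ), 0 < κ → κ ≤ 1 / 2 → 0 < ε → ∃ N₀ : ℕ, ∀ N : ℕ, N₀ ≤ N → ∀ H : ℕ, H ≤ 2 * N → ∀ α : ℝ,
  ‖∑ n ∈ Icc 1 H, ((fk t κ N n : ℝ) : ℂ) * ee ((n : ℝ) * α)‖ ≤ (N : ℝ) ^ (1 - κ + ε)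

def S_CORR : Prop := ∀ W : ℕ → ℝ, (∀ a, 0 ≤ W a) → ∀ Y D z A : ℕ, 1 ≤ z → ∀ (h : ℤ) (ρ : ℝ), 0 ≤ ρ →
  (∀ q ∈ Icc 1 z, ∀ n : ℕ, ww W Y D q n ≤ ρ / q) →
  |∑ n ∈ Icc 1 A, MY W Y D z n * MY W Y D z ((n : ℤ) + h).toNat -
      ∑ q ∈ Icc 1 z, (cz q h : ℝ) * ∑ n ∈ Icc 1 A, ww W Y D q n * ww W Y D q ((n : ℤ) + h).toNat| ≤
    1000 * (z : ℝ) ^ 3 * (1 + Real.log z) ^ 2 * ρ ^ 2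

def S_DEC : Prop := ∀ (t Y D z x N H : ℕ) (h : ℤ) (K : ℝ), 0 ≤ K → 1 ≤ z → x ≤ N → H = 2 * N → |h| ≤ (N : ℤ) →
  (∀ a n, n ≤ H → a * Y < n → a ≤ D) →
  (∀ n, 1 ≤ n → n ≤ H → (dk (t + 2) n : ℝ) ≤ K ∧ FY (WE Y t) Y D n ≤ K ∧ |MY (WE Y t) Y D z n| ≤ K) →
  (∀ q ∈ Icc 1 z, ∀ n : ℕ, ww (WE Y t) Y D q n ≤ K / q) →
  |Dr (t + 2) x h - Mn (WE Y t) Y D z x h| ≤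
      |∑ a ∈ Icc 1 x, (dk (t + 2) a : ℝ) * (if 1 ≤ (a : ℤ) + h ∧ (a : ℤ) + h ≤ H then
        (fun n => FY (WE Y t) Y D n - MY (WE Y t) Y D z n) ((a : ℤ) + h).toNat else 0)| +
      |∑ a ∈ Icc 1 H, MY (WE Y t) Y D z a * (if 1 ≤ (a : ℤ) + -h ∧ (a : ℤ) + -h ≤ x then
        (fun n => FY (WE Y t) Y D n - MY (WE Y t) Y D z n) ((a : ℤ) + -h).toNat else 0)| +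
      (2 * (Y : ℝ) ^ (t + 2) * K ^ 2 + 1000 * (z : ℝ) ^ 3 * (1 + Real.log z) ^ 2 * K ^ 2)

def S_KEY : Prop := ∀ p N A H : ℕ, 1 ≤ p → 1 ≤ N → A ≤ 2 * N → H ≤ 2 * N → ∀ (ι : Type) [Fintype ι] (v : ι → ℤ),
  (∀ i, |v i| ≤ (N : ℤ)) → ∀ (G f : ℕ → ℝ) (K Δ : ℝ), 0 ≤ K → 0 ≤ Δ → (∀ a ∈ Icc 1 A, |G a| ≤ K) → (∀ n ∈ Icc 1 H, |f n| ≤ K) →
  (∀ α : ℝ, ‖∑ n ∈ Icc 1 H, ((f n : ℝ) : ℂ) * ee ((n : ℝ) * α)‖ ≤ Δ) →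
  (∑ i, |∑ a ∈ Icc 1 A, G a * (if 1 ≤ (a : ℤ) + v i ∧ (a : ℤ) + v i ≤ H then f ((a : ℤ) + v i).toNat else 0)|) ^ (2 * p) ≤
    Δ ^ 2 * (2 * N * K ^ 2) ^ (2 * p - 1) * En p v

def S_MAINY : Prop := ∀ (t p : ℕ) (κ δ ε : ℝ), 1 ≤ p → 0 < κ → 0 < δ → 3 * κ ≤ 1 - δ → ((t : ℝ) + 2) * κ ≤ 1 - δ → 0 < ε →
  ∃ θ : ℝ, 0 < θ ∧ ∃ N₀ : ℕ, ∀ N : ℕ, N₀ ≤ N → ∀ (ι : Type) [Fintype ι] (v : ι → ℤ), (∀ i, |v i| ≤ (N : ℤ)) →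
    (∀ i, ∃ x : ℕ, x ≤ N ∧ (N : ℝ) ^ (1 - θ) < |Dr (t + 2) x (v i) - Mk t κ N (zk κ N) x (v i)|) →
    (Fintype.card ι : ℝ) ^ (2 * p) ≤ (N : ℝ) ^ (1 - 2 * κ + ε) * En p v

def S_TAIL : Prop := ∀ (t : ℕ) (κ κ' : ℝ), 0 < κ' → κ' ≤ κ → κ ≤ 1 / 2 → ∃ N₀ : ℕ, ∀ N : ℕ, N₀ ≤ N → ∀ x : ℕ, x ≤ N →
  ∀ h : ℤ, h ≠ 0 → |h| ≤ (N : ℤ) → |Mk t κ N (zk κ N) x h - Mk t κ N (zk κ' N) x h| ≤ (N : ℝ) ^ (1 - κ' / 8)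

def S_TOP : Prop := ∀ (t : ℕ) (P : ℕ → ℝ[X]), HW t P → ∀ κ δ : ℝ, 0 < κ → κ ≤ 1 / 2 → 0 < δ → ((t : ℝ) + 2) * κ ≤ 1 - δ →
  1 / 2 ≤ ((t : ℝ) + 2) * κ → ∃ κ₀ : ℝ, 0 < κ₀ ∧ ∀ κ' : ℝ, 0 < κ' → κ' ≤ κ₀ → κ' ≤ κ → ∃ θ : ℝ, 0 < θ ∧ ∃ N₀ : ℕ, ∀ N : ℕ, N₀ ≤ N →
    ∀ x : ℕ, x ≤ N → ∀ h : ℤ, |h| ≤ (N : ℤ) → |Mk t κ N (zk κ' N) x h - Mp P (zk κ' N) x h| ≤ (N : ℝ) ^ (1 - θ)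

def S_FIN : Prop := ∀ (t : ℕ) (P : ℕ → ℝ[X]), 1 ≤ t → HW t P → ∀ (p : ℕ) (ε : ℝ), 1 ≤ p → 0 < ε → ∃ θ : ℝ, 0 < θ ∧ θ ≤ 1 ∧
  ∀ η : ℝ, 0 < η → η ≤ θ → ∃ N₀ : ℕ, ∀ N : ℕ, N₀ ≤ N → ∀ (ι : Type) [Fintype ι] (v : ι → ℤ), (∀ i, v i ≠ 0 ∧ |v i| ≤ (N : ℤ)) →
    (∀ i, ¬ GoodP t N P θ η (v i)) → (Fintype.card ι : ℝ) ^ (2 * p) ≤ (N : ℝ) ^ (1 - 2 / ((t : ℝ) + 2) + ε) * En p v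

end Pool.Agent.H30.ES
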